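import Pool.Agent.CRT99.Kernel

set_option autoImplicit false

/-!
# Soundness of the certificate
-/

namespace Pool.Agent.CRT99

open Pool.Agent.Helper60.Hit Pool.Agent.CTD MvPolynomial

variable {B d N ec M R D : ℕ} {e : Fin d → ℕ} {ws : List ℕ}

/-- the list of codes stands for an element of the hit elements plus lower monomials -/
def Holds (B d N : ℕ) (e : Fin d → ℕ) (l : List ℕ) : Prop :=
  ∃ zs : List (Fin d → ℕ), l = zs.map (cod (2 ^ B) d) ∧ (∀ y ∈ zs, ∑ i, y i = N) ∧
    pol zs ∈ hits d ⊔ msp (fun y => MonLT y e)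

theorem holds_nil : Holds B d N e [] :=
  ⟨[], rfl, fun y hy => by simp at hy, by rw [pol_nil]; exact Submodule.zero_mem _⟩

theorem wk_cons (t w : ℕ) (wj : List ℕ) : wk M R (w :: wj) t =
    Bool.rec false (wk M R wj (t / 2)) (Nat.beq ((t &&& M) % R) w) := rfl

theorem wk_spec_aux (hR : R = 2 ^ B - 1) (hM : M = mask (2 ^ B) d) (hd : d < 2 ^ B - 1)
    {y : Fin d → ℕ} (hy : ∀ i, y i < 2 ^ B) (he : ∀ i, e i < 2 ^ B) :
    ∀ (m s : ℕ), s + m ≤ B → wk M R (wl M R m (cod (2 ^ B) d e / 2 ^ s))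
      (cod (2 ^ B) d y / 2 ^ s) = true → ∀ l, s ≤ l → l < s + m → wt y l = wt e l
  | 0, s, _, _, l, h1, h2 => by omega
  | m + 1, s, hs, h, l, h1, h2 => by
    have hsB : s < B := by omega
    have e1 : (cod (2 ^ B) d e / 2 ^ s &&& M) % R = wt e s := by
      rw [hM, hR]; exact wt_cod hd e s he hsB
    have e2 : (cod (2 ^ B) d y / 2 ^ s &&& M) % R = wt y s := by
      rw [hM, hR]; exact wt_cod hd y s hy hsB
    have h' : wk M R ((cod (2 ^ B) d e / 2 ^ s &&& M) % R ::
        wl M R m (cod (2 ^ B) d e / 2 ^ s / 2)) (cod (2 ^ B) d y / 2 ^ s) = true := h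
    rw [wk_cons] at h'
    rcases h3 : Nat.beq ((cod (2 ^ B) d y / 2 ^ s &&& M) % R)
        ((cod (2 ^ B) d e / 2 ^ s &&& M) % R) with _ | _
    · rw [h3] at h'; cases h'
    · rw [h3] at h'
      have h4 := Nat.eq_of_beq_eq_true h3
      rw [e1, e2] at h4
      have h5 : wk M R (wl M R m (cod (2 ^ B) d e / 2 ^ s / 2))
        (cod (2 ^ B) d y / 2 ^ s / 2) = true := h'
      rw [Nat.div_div_eq_div_mul, Nat.div_div_eq_div_mul, ← pow_succ] at h5
      rcases Nat.eq_or_lt_of_le h1 with h9 | h9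
      · rw [← h9]; exact h4
      · exact wk_spec_aux hR hM hd hy he m (s + 1) (by omega) h5 l h9 (by omega)

/-- the static list of positions -/
def psL (B d j m : ℕ) : List (ℕ × ℕ × ℕ) := (poss d j m).map (enc B d)

/-- the data of a family of rows -/
structure Par (B d N ec M R : ℕ) (wj : List ℕ) (ps : List (ℕ × ℕ × ℕ)) (k j m : ℕ) : Prop where
  hps : ps = psL B d j m
  hjm : j + m ≤ B
  hk : 0 < k
  hk2 : k < 2 ^ (j + m)
  hwj : wj = wl M R j ec

theorem lv_lt {j : ℕ} : ∀ {m s : ℕ}, s ∈ lv j m → s < j + m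
  | 0, s, h => by simp [lv] at h
  | m + 1, s, h => by
    rw [lv, List.mem_cons] at h
    rcases h with h | h
    · omega
    · have := lv_lt h; omega

theorem row_holds (C : Ctx B d N e ec M R D ws) {wj : List ℕ} {ps : List (ℕ × ℕ × ℕ)}
    {k j m : ℕ} (P : Par B d N ec M R wj ps k j m) {z : ℕ} (hz : z < 2 ^ (B * d)) :
    Holds B d N e (row ec M R D d N ws wj ps k z) := by
  have hD : 0 < 2 ^ B := by positivity
  rw [pow_mul] at hz
  obtain ⟨y, hy1, hy2, hy3⟩ := exists_dec hD d z k hz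
  have hrow : row ec M R D d N ws wj ps k z =
      Bool.rec [] (Bool.rec [] (en ec M R ws z ps k z []) (wk M R wj z))
        (Nat.beq (sd D d z k) N) := rfl
  rw [hrow]
  rcases h1 : Nat.beq (sd D d z k) N with _ | _
  · exact holds_nil
  rcases h2 : wk M R wj z with _ | _
  · exact holds_nil
  have h1' := Nat.eq_of_beq_eq_true h1
  rw [C.hD, hy3] at h1'
  have hdeg : ∑ i, y i + k = N := by omega
  have heB := fun i => lt_of_sum C.hN C.hNB i
  have h3 := wk_spec_aux C.hR C.hM C.hd hy2 heB j 0 (by have := P.hjm; omega)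
  rw [pow_zero, Nat.div_one, Nat.div_one, ← C.hec, ← P.hwj, hy1] at h3
  have h4 := h3 h2
  obtain ⟨zs, hzs1, hzs2, hzs3⟩ := en_spec C hy2 (poss d j m) (by
    intro p hp
    unfold poss at hp
    rw [List.mem_flatMap] at hp
    obtain ⟨i, _, hi⟩ := hp
    rw [List.mem_map] at hi
    obtain ⟨s, hs, rfl⟩ := hi
    have := lv_lt hs
    have := P.hjm
    omega) k y [] hdeg
  rw [hy1] at hzs1
  refine ⟨zs, ?_, hzs2, ?_⟩
  · show en ec M R ws z ps k z [] = _
    rw [P.hps]
    unfold psL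
    rw [hzs1, List.append_nil]
  · have h5 := row_main (e := e) (z := y) (j := j) (m := m) (k := k) P.hk2
      (fun s hs => h4 s (by omega) (by omega)) (by rw [hdeg, C.hN])
    have h6 : pol zs = sq d k (mono y) + (-(sq d k (mono y) - F y (poss d j m) k y) -
        (F y (poss d j m) k y - pol zs)) := by ring
    rw [h6]
    exact Submodule.add_mem_sup (sq_hits P.hk _)
      (Submodule.sub_mem _ (Submodule.neg_mem _ h5) hzs3)

theorem mono_add_self (z : Fin d → ℕ) : mono z + mono z = 0 := CharTwo.add_self_eq_zero _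

/-- merging adds the polynomials -/
theorem mg_spec (hN : N < 2 ^ B) : ∀ (n : ℕ) (a b : List (Fin d → ℕ)),
    (∀ y ∈ a, ∑ i, y i = N) → (∀ y ∈ b, ∑ i, y i = N) →
    ∃ zs : List (Fin d → ℕ), mg n (a.map (cod (2 ^ B) d)) (b.map (cod (2 ^ B) d)) =
      zs.map (cod (2 ^ B) d) ∧ (∀ y ∈ zs, ∑ i, y i = N) ∧ pol zs = pol a + pol b
  | 0, a, b, ha, hb => by
    refine ⟨a ++ b, ?_, ?_, pol_append _ _⟩
    · show a.map _ ++ b.map _ = _
      rw [List.map_append]
    · intro y hy
      rw [List.mem_append] at hy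
      exact hy.elim (ha y) (hb y)
  | n + 1, [], b, ha, hb => ⟨b, rfl, hb, by rw [pol_nil, zero_add]⟩
  | n + 1, x :: xs, [], ha, hb => ⟨x :: xs, rfl, ha, by rw [pol_nil, add_zero]⟩
  | n + 1, x :: xs, y :: ys, ha, hb => by
    have hx := ha x (List.mem_cons_self ..)
    have hy := hb y (List.mem_cons_self ..)
    have hxs : ∀ z ∈ xs, ∑ i, z i = N := fun z hz => ha z (List.mem_cons_of_mem _ hz)
    have hys : ∀ z ∈ ys, ∑ i, z i = N := fun z hz => hb z (List.mem_cons_of_mem _ hz)
    have hmg : mg (n + 1) ((x :: xs).map (cod (2 ^ B) d)) ((y :: ys).map (cod (2 ^ B) d)) =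
        Bool.rec (cod (2 ^ B) d y :: mg n ((x :: xs).map (cod (2 ^ B) d)) (ys.map (cod (2 ^ B) d)))
          (Bool.rec (cod (2 ^ B) d x :: mg n (xs.map (cod (2 ^ B) d))
              ((y :: ys).map (cod (2 ^ B) d)))
            (mg n (xs.map (cod (2 ^ B) d)) (ys.map (cod (2 ^ B) d)))
            (Nat.ble (cod (2 ^ B) d y) (cod (2 ^ B) d x)))
          (Nat.ble (cod (2 ^ B) d x) (cod (2 ^ B) d y)) := rfl
    rw [hmg]
    rcases h1 : Nat.ble (cod (2 ^ B) d x) (cod (2 ^ B) d y) with _ | _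
    · obtain ⟨zs, h2, h3, h4⟩ := mg_spec hN n (x :: xs) ys ha hys
      refine ⟨y :: zs, ?_, ?_, ?_⟩
      · show cod (2 ^ B) d y :: mg n ((x :: xs).map (cod (2 ^ B) d)) (ys.map (cod (2 ^ B) d)) = _
        rw [h2, List.map_cons]
      · intro w hw
        rw [List.mem_cons] at hw
        rcases hw with rfl | hw
        · exact hy
        · exact h3 w hw
      · rw [pol_cons, h4, pol_cons y]; ring
    · rcases h2 : Nat.ble (cod (2 ^ B) d y) (cod (2 ^ B) d x) with _ | _
      · obtain ⟨zs, h2, h3, h4⟩ := mg_spec hN n xs (y :: ys) hxs hb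
        refine ⟨x :: zs, ?_, ?_, ?_⟩
        · show cod (2 ^ B) d x :: mg n (xs.map (cod (2 ^ B) d)) ((y :: ys).map (cod (2 ^ B) d)) = _
          rw [h2, List.map_cons]
        · intro w hw
          rw [List.mem_cons] at hw
          rcases hw with rfl | hw
          · exact hx
          · exact h3 w hw
        · rw [pol_cons, h4, pol_cons x]; ring
      · obtain ⟨zs, h2', h3, h4⟩ := mg_spec hN n xs ys hxs hys
        refine ⟨zs, h2', h3, ?_⟩
        have hxy : x = y := cod_inj d x y (lt_of_sum hx hN) (lt_of_sum hy hN)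
          (le_antisymm (Nat.le_of_ble_eq_true h1) (Nat.le_of_ble_eq_true h2))
        rw [h4, pol_cons, pol_cons, hxy]
        have := mono_add_self y
        calc pol xs + pol ys = pol xs + pol ys + 0 := by ring
          _ = pol xs + pol ys + (mono y + mono y) := by rw [this]
          _ = _ := by ring

theorem Holds.mg (hN : N < 2 ^ B) {a b : List ℕ} (ha : Holds B d N e a) (hb : Holds B d N e b)
    (n : ℕ) : Holds B d N e (CRT99.mg n a b) := by
  obtain ⟨xs, rfl, hx2, hx3⟩ := ha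
  obtain ⟨ys, rfl, hy2, hy3⟩ := hb
  obtain ⟨zs, h1, h2, h3⟩ := mg_spec hN n xs ys hx2 hy2
  exact ⟨zs, h1, h2, by rw [h3]; exact Submodule.add_mem _ hx3 hy3⟩

theorem tree_holds (C : Ctx B d N e ec M R D ws) {wj : List ℕ} {ps : List (ℕ × ℕ × ℕ)}
    {k j m : ℕ} (P : Par B d N ec M R wj ps k j m) {S : ℕ} (hS : S = B * d) (fuel : ℕ) :
    ∀ h n : ℕ, Holds B d N e (tree ec M R D d N fuel S ws wj ps k h n)
  | 0, n => by
    show Holds B d N e (row ec M R D d N ws wj ps k (n % 2 ^ S))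
    exact row_holds C P (by rw [hS]; exact Nat.mod_lt _ (by positivity))
  | h + 1, n => by
    have ht : tree ec M R D d N fuel S ws wj ps k (h + 1) n = Bool.rec
      (CRT99.mg fuel (tree ec M R D d N fuel S ws wj ps k h (n % 2 ^ (S * 2 ^ h)))
        (tree ec M R D d N fuel S ws wj ps k h (n / 2 ^ (S * 2 ^ h)))) [] (Nat.beq n 0) := rfl
    rw [ht]
    rcases h1 : Nat.beq n 0 with _ | _
    · exact Holds.mg C.hNB (tree_holds C P hS fuel h _) (tree_holds C P hS fuel h _) fuel
    · exact holds_nil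

theorem leq_spec : ∀ a b : List ℕ, leq a b = true → a = b
  | [], [], _ => rfl
  | [], _ :: _, h => by cases h
  | _ :: _, [], h => by cases h
  | x :: xs, y :: ys, h => by
    have h' : Bool.rec false (leq xs ys) (Nat.beq x y) = true := h
    rcases h1 : Nat.beq x y with _ | _
    · rw [h1] at h'; cases h'
    · rw [h1] at h'
      rw [Nat.eq_of_beq_eq_true h1, leq_spec xs ys h']

theorem Holds.of_leq {a b : List ℕ} (ha : Holds B d N e a) (h : leq a b = true) :
    Holds B d N e b := leq_spec a b h ▸ ha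

/-- the certificate proves that the target is inadmissible -/
theorem Holds.not_adm (C : Ctx B d N e ec M R D ws) (h : Holds B d N e [ec]) : ¬ Adm e := by
  obtain ⟨zs, h1, h2, h3⟩ := h
  rcases zs with _ | ⟨z, _ | ⟨z', zs⟩⟩
  · simp at h1
  · rw [List.map_cons, List.map_nil, List.cons.injEq] at h1
    have hz := h2 z (List.mem_cons_self ..)
    have : z = e := cod_inj d z e (lt_of_sum hz C.hNB) (lt_of_sum C.hN C.hNB)
      (by rw [← h1.1, C.hec])
    rw [pol_cons, pol_nil, add_zero, this] at h3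
    intro hadm
    exact hadm h3
  · simp at h1

end Pool.Agent.CRT99
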