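import Pool.Agent.HitD5.SqMono

set_option autoImplicit false

/-!
# Numerical codes of exponent vectors (for kernel checked certificates)

An exponent vector of length `d` is coded by its digits in base `D = 2 ^ B`; the variable of
index `0` is the most significant digit, so that the order of the codes is the left
lexicographic order.
-/

namespace Pool.Agent.CRT99

open Pool.Agent.Helper60.Hit

/-- the code of an exponent vector -/
def cod (D : ℕ) : (d : ℕ) → (Fin d → ℕ) → ℕ
  | 0, _ => 0
  | d + 1, z => cod D d (fun i => z i.castSucc) * D + z (Fin.last d)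

/-- digit sum, last variable first -/
def sd (D : ℕ) (n z a : ℕ) : ℕ :=
  Nat.rec (motive := fun _ => ℕ → ℕ → ℕ) (fun _ a => a)
    (fun _ ih z a => ih (Nat.div z D) (Nat.add a (Nat.mod z D))) n z a

theorem sd_zero (D z a : ℕ) : sd D 0 z a = a := rfl

theorem sd_succ (D n z a : ℕ) : sd D (n + 1) z a = sd D n (z / D) (a + z % D) := rfl

/-- the mask with a `1` in every digit -/
def mask (D : ℕ) (n : ℕ) : ℕ := Nat.rec (motive := fun _ => ℕ) 0 (fun _ m => Nat.add (Nat.mul m D) 1) n

theorem mask_succ (D n : ℕ) : mask D (n + 1) = mask D n * D + 1 := rfl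

theorem cod_succ (D d : ℕ) (z : Fin (d + 1) → ℕ) :
    cod D (d + 1) z = cod D d (fun i => z i.castSucc) * D + z (Fin.last d) := rfl

theorem cod_add (D : ℕ) : ∀ (d : ℕ) (z y : Fin d → ℕ), cod D d (z + y) = cod D d z + cod D d y
  | 0, _, _ => rfl
  | d + 1, z, y => by
    have h := cod_add D d (fun i => z i.castSucc) (fun i => y i.castSucc)
    have e : (fun i : Fin d => (z + y) i.castSucc) =
        (fun i => z i.castSucc) + (fun i => y i.castSucc) := rfl
    rw [cod_succ, cod_succ, cod_succ, e, h, Pi.add_apply]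
    ring

theorem cod_zero (D : ℕ) : ∀ (d : ℕ), cod D d 0 = 0
  | 0 => rfl
  | d + 1 => by
    have h := cod_zero D d
    have e : (fun i : Fin d => (0 : Fin (d + 1) → ℕ) i.castSucc) = 0 := rfl
    rw [cod_succ, e, h, Pi.zero_apply, zero_mul]
    rfl

theorem cod_single (D : ℕ) : ∀ (d : ℕ) (i : Fin d) (a : ℕ),
    cod D d (Pi.single i a) = a * D ^ (d - 1 - (i : ℕ))
  | 0, i, _ => i.elim0
  | d + 1, i, a => by
    rcases Fin.eq_castSucc_or_eq_last i with ⟨j, rfl⟩ | rfl
    · have e : (fun l : Fin d => (Pi.single j.castSucc a : Fin (d + 1) → ℕ) l.castSucc) =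
          Pi.single j a := by
        funext l
        by_cases h : l = j
        · subst h; rw [Pi.single_eq_same, Pi.single_eq_same]
        · rw [Pi.single_eq_of_ne h, Pi.single_eq_of_ne]
          intro hh; exact h (Fin.castSucc_injective _ hh)
      have h := cod_single D d j a
      have hl : (Pi.single j.castSucc a : Fin (d + 1) → ℕ) (Fin.last d) = 0 := by
        rw [Pi.single_eq_of_ne]; exact (Fin.castSucc_lt_last j).ne'
      rw [cod_succ, e, h, hl, add_zero]
      rw [mul_assoc, ← pow_succ]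
      congr 2
      have := j.2
      simp only [Fin.val_castSucc]
      omega
    · have e : (fun l : Fin d => (Pi.single (Fin.last d) a : Fin (d + 1) → ℕ) l.castSucc) = 0 := by
        funext l
        rw [Pi.single_eq_of_ne]
        · rfl
        · exact (Fin.castSucc_lt_last l).ne
      rw [cod_succ, e, cod_zero, Pi.single_eq_same, zero_mul, zero_add, Fin.val_last]
      simp

/-- decoding -/
theorem exists_dec {D : ℕ} (hD : 0 < D) : ∀ (d t a : ℕ), t < D ^ d →
    ∃ z : Fin d → ℕ, cod D d z = t ∧ (∀ i, z i < D) ∧ sd D d t a = a + ∑ i, z i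
  | 0, t, a, h => by
    refine ⟨fun i => i.elim0, ?_, fun i => i.elim0, ?_⟩
    · have : t = 0 := by simpa using h
      rw [this]; rfl
    · simp [sd_zero]
  | d + 1, t, a, h => by
    have h1 : t / D < D ^ d := by
      rw [Nat.div_lt_iff_lt_mul hD, ← pow_succ]; exact h
    obtain ⟨z, hz, hzD, hs⟩ := exists_dec hD d (t / D) (a + t % D) h1
    refine ⟨Fin.snoc (α := fun _ => ℕ) z (t % D), ?_, ?_, ?_⟩
    · have e : (fun i : Fin d => (Fin.snoc (α := fun _ => ℕ) z (t % D) : Fin (d + 1) → ℕ) i.castSucc) = z := by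
        funext i; rw [Fin.snoc_castSucc]
      simp only [cod, e, hz, Fin.snoc_last]
      exact Nat.div_add_mod' t D
    · intro i
      rcases Fin.eq_castSucc_or_eq_last i with ⟨j, rfl⟩ | rfl
      · rw [Fin.snoc_castSucc]; exact hzD j
      · rw [Fin.snoc_last]; exact Nat.mod_lt _ hD
    · rw [sd_succ, hs, Fin.sum_univ_castSucc]
      simp only [Fin.snoc_castSucc, Fin.snoc_last]
      ring

theorem cod_inj {D : ℕ} : ∀ (d : ℕ) (z y : Fin d → ℕ), (∀ i, z i < D) → (∀ i, y i < D) →
    cod D d z = cod D d y → z = y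
  | 0, _, _, _, _, _ => by funext i; exact i.elim0
  | d + 1, z, y, hz, hy, h => by
    have hz0 := hz (Fin.last d)
    have hy0 := hy (Fin.last d)
    simp only [cod] at h
    have hD : 0 < D := by omega
    have h1 : z (Fin.last d) = y (Fin.last d) := by
      have := congrArg (· % D) h
      simpa [Nat.mul_add_mod', Nat.mod_eq_of_lt hz0, Nat.mod_eq_of_lt hy0] using this
    have h2 : cod D d (fun i => z i.castSucc) = cod D d (fun i => y i.castSucc) := by
      rw [h1] at h
      exact Nat.eq_of_mul_eq_mul_right hD (Nat.add_right_cancel h)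
    have h3 := cod_inj d _ _ (fun i => hz i.castSucc) (fun i => hy i.castSucc) h2
    funext i
    rcases Fin.eq_castSucc_or_eq_last i with ⟨j, rfl⟩ | rfl
    · exact congrFun h3 j
    · exact h1

/-- the order of the codes is the left lexicographic order -/
theorem cod_lt {D : ℕ} : ∀ (d : ℕ) (z y : Fin d → ℕ), (∀ i, z i < D) → (∀ i, y i < D) →
    cod D d z < cod D d y → ∃ i : Fin d, (∀ j, j < i → z j = y j) ∧ z i < y i
  | 0, _, _, _, _, h => by simp [cod] at h
  | d + 1, z, y, hz, hy, h => by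
    have hz0 := hz (Fin.last d)
    have hy0 := hy (Fin.last d)
    simp only [cod] at h
    rcases lt_trichotomy (cod D d (fun i => z i.castSucc)) (cod D d (fun i => y i.castSucc)) with
      h1 | h1 | h1
    · obtain ⟨i, hi, hi2⟩ := cod_lt d _ _ (fun i => hz i.castSucc) (fun i => hy i.castSucc) h1
      refine ⟨i.castSucc, fun j hj => ?_, hi2⟩
      rcases Fin.eq_castSucc_or_eq_last j with ⟨l, rfl⟩ | rfl
      · exact hi l (by simpa using hj)
      · exact absurd hj (not_lt.mpr (Fin.le_last _))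
    · have h3 := cod_inj d _ _ (fun i => hz i.castSucc) (fun i => hy i.castSucc) h1
      rw [h1] at h
      refine ⟨Fin.last d, fun j hj => ?_, by omega⟩
      rcases Fin.eq_castSucc_or_eq_last j with ⟨l, rfl⟩ | rfl
      · exact congrFun h3 l
      · exact absurd hj (lt_irrefl _)
    · exfalso
      have h4 : (cod D d (fun i => y i.castSucc) + 1) * D ≤ cod D d (fun i => z i.castSucc) * D :=
        Nat.mul_le_mul_right _ h1
      rw [Nat.add_mul, one_mul] at h4
      omega

/-! ### bits -/

theorem land_mask_step {B X a M s : ℕ} (ha : a < 2 ^ B) (hs : s < B) :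
    ((X * 2 ^ B + a) / 2 ^ s) &&& (M * 2 ^ B + 1) =
      ((X / 2 ^ s) &&& M) * 2 ^ B + a / 2 ^ s % 2 := by
  have h1 : (1 : ℕ) < 2 ^ B := Nat.one_lt_two_pow (by omega)
  have h2 : a / 2 ^ s % 2 < 2 ^ B := lt_of_lt_of_le (Nat.mod_lt _ (by norm_num)) (by omega)
  apply Nat.eq_of_testBit_eq
  intro q
  rw [Nat.testBit_and, Nat.testBit_div_two_pow, mul_comm X, mul_comm M, mul_comm (X / 2 ^ s &&& M),
    Nat.testBit_two_pow_mul_add _ ha, Nat.testBit_two_pow_mul_add _ h1,
    Nat.testBit_two_pow_mul_add _ h2]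
  by_cases hq : q < B
  · rw [if_pos hq, if_pos hq]
    rcases Nat.eq_zero_or_pos q with rfl | hq0
    · rw [zero_add, if_pos hs]
      have : Nat.testBit 1 0 = true := by decide
      rw [this, Bool.and_true, Nat.testBit_zero, Nat.testBit_eq_decide_div_mod_eq]
      simp
    · have e1 : Nat.testBit 1 q = false := by
        rw [Nat.testBit_eq_decide_div_mod_eq, Nat.div_eq_of_lt (Nat.one_lt_two_pow (by omega))]
        rfl
      have e2 : Nat.testBit (a / 2 ^ s % 2) q = false := by
        rw [Nat.testBit_eq_decide_div_mod_eq, Nat.div_eq_of_lt]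
        · rfl
        · calc a / 2 ^ s % 2 < 2 := Nat.mod_lt _ (by norm_num)
            _ = 2 ^ 1 := by norm_num
            _ ≤ 2 ^ q := Nat.pow_le_pow_right (by norm_num) hq0
      rw [e1, e2, Bool.and_false]
  · rw [if_neg hq, if_neg hq, if_neg (by omega), Nat.testBit_and, Nat.testBit_div_two_pow]
    congr 2
    omega

theorem land_mask {B : ℕ} : ∀ (d : ℕ) (z : Fin d → ℕ) (s : ℕ), (∀ i, z i < 2 ^ B) → s < B →
    (cod (2 ^ B) d z / 2 ^ s) &&& mask (2 ^ B) d = cod (2 ^ B) d (fun i => z i / 2 ^ s % 2)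
  | 0, z, s, _, _ => by
    show (0 / 2 ^ s) &&& 0 = 0
    simp
  | d + 1, z, s, hz, hs => by
    have h := land_mask d (fun i => z i.castSucc) s (fun i => hz _) hs
    simp only [cod, mask_succ]
    rw [land_mask_step (hz _) hs, h]

theorem cod_mod {D : ℕ} (hD : 1 < D) : ∀ (d : ℕ) (z : Fin d → ℕ),
    cod D d z % (D - 1) = (∑ i, z i) % (D - 1)
  | 0, z => by simp [cod]
  | d + 1, z => by
    have h := cod_mod hD d (fun i => z i.castSucc)
    simp only [cod]
    rw [Fin.sum_univ_castSucc, Nat.add_mod, Nat.mul_mod, h]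
    have e : D % (D - 1) = 1 % (D - 1) := by
      have h2 : D % (D - 1) = (1 + (D - 1)) % (D - 1) := by congr 1; omega
      rw [h2, Nat.add_mod_right]
    rw [e, ← Nat.mul_mod, mul_one, ← Nat.add_mod]

/-- the number of exponents with bit `s`, read off the code -/
theorem wt_cod {B d : ℕ} (hd : d < 2 ^ B - 1) (z : Fin d → ℕ) (s : ℕ) (hz : ∀ i, z i < 2 ^ B)
    (hs : s < B) :
    ((cod (2 ^ B) d z / 2 ^ s) &&& mask (2 ^ B) d) % (2 ^ B - 1) = wt z s := by
  have h1 : (1 : ℕ) < 2 ^ B := Nat.one_lt_two_pow (by omega)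
  rw [land_mask d z s hz hs, cod_mod h1]
  apply Nat.mod_eq_of_lt
  refine lt_of_le_of_lt ?_ hd
  calc ∑ i, z i / 2 ^ s % 2 ≤ ∑ i : Fin d, 1 := Finset.sum_le_sum (fun i _ => by omega)
    _ = d := by simp

theorem add_bit {B s : ℕ} (X : ℕ) {a : ℕ} (hs : s < B) :
    (X * 2 ^ B + a) / 2 ^ s % 2 = a / 2 ^ s % 2 := by
  have e2 : 2 ^ B = 2 ^ s * (2 * 2 ^ (B - s - 1)) := by
    rw [← pow_succ', ← pow_add]; congr 1; omega
  have e3 : X * 2 ^ B + a = 2 ^ s * (2 * (2 ^ (B - s - 1) * X)) + a := by
    rw [e2]; ring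
  rw [e3, Nat.mul_add_div (by positivity)]
  omega

/-- reading a bit off the code -/
theorem bit_cod {B : ℕ} : ∀ (d : ℕ) (z : Fin d → ℕ) (i : Fin d) (s : ℕ), (∀ i, z i < 2 ^ B) →
    s < B → (cod (2 ^ B) d z) >>> (s + B * (d - 1 - (i : ℕ))) % 2 = z i / 2 ^ s % 2
  | 0, _, i, _, _, _ => i.elim0
  | d + 1, z, i, s, hz, hs => by
    have hl := hz (Fin.last d)
    simp only [cod]
    rcases Fin.eq_castSucc_or_eq_last i with ⟨j, rfl⟩ | rfl
    · have h := bit_cod d (fun i => z i.castSucc) j s (fun i => hz _) hs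
      rw [← h]
      have hj := j.2
      have e : s + B * (d + 1 - 1 - (j.castSucc : ℕ)) = B + (s + B * (d - 1 - (j : ℕ))) := by
        simp only [Fin.val_castSucc]
        have : d + 1 - 1 - (j : ℕ) = (d - 1 - (j : ℕ)) + 1 := by omega
        rw [this]; ring
      rw [e, Nat.shiftRight_add]
      congr 2
      rw [Nat.shiftRight_eq_div_pow, mul_comm, Nat.mul_add_div (by positivity),
        Nat.div_eq_of_lt hl, add_zero]
    · have e : s + B * (d + 1 - 1 - ((Fin.last d : Fin (d + 1)) : ℕ)) = s := by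
        simp
      rw [e, Nat.shiftRight_eq_div_pow]
      exact add_bit _ hs

end Pool.Agent.CRT99
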