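import Pool.Agent.CRT99.Minor

set_option autoImplicit false

/-!
# A kernel checked certificate for admissibility

A sum of spike functionals (of the weight vector of the target), pulled back by linear
substitutions, whose least monomial is the target.
-/

namespace Pool.Agent.CRT99

open Pool.Agent.Helper60.Hit Pool.Agent.CTD MvPolynomial

variable {d m B G P : ℕ}

/-- spread a binary code -/
def spr (D : ℕ) (n i : ℕ) : ℕ :=
  Nat.rec (motive := fun _ => ℕ → ℕ) (fun _ => 0)
    (fun _ ih i => Nat.add (Nat.mul (ih (Nat.div i 2)) D) (Nat.mod i 2)) n i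

theorem spr_succ (D n i : ℕ) : spr D (n + 1) i = spr D n (i / 2) * D + i % 2 := rfl

theorem spr_cod (D : ℕ) : ∀ (d : ℕ) (z : Fin d → ℕ), (∀ i, z i < 2) →
    spr D d (cod 2 d z) = cod D d z
  | 0, _, _ => rfl
  | d + 1, z, hz => by
    have h := spr_cod D d (fun i => z i.castSucc) (fun i => hz _)
    have h2 := hz (Fin.last d)
    rw [spr_succ, cod_succ, cod_succ]
    have e1 : (cod 2 d (fun i => z i.castSucc) * 2 + z (Fin.last d)) / 2 =
        cod 2 d (fun i => z i.castSucc) := by omega
    have e2 : (cod 2 d (fun i => z i.castSucc) * 2 + z (Fin.last d)) % 2 = z (Fin.last d) := by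
      omega
    rw [e1, e2, h]

/-- the nonzero table entries of size `w` -/
def lev (D d w : ℕ) (T : ℕ → ℕ) (n : ℕ) : List (ℕ × ℕ) :=
  Nat.rec (motive := fun _ => List (ℕ × ℕ)) []
    (fun i ih => Bool.rec ih (Bool.rec ((spr D d i, T i) :: ih) ih (Nat.beq (T i) 0))
      (Nat.beq (sd 2 d i 0) w)) n

theorem lev_mem (D d w : ℕ) (T : ℕ → ℕ) : ∀ (n i : ℕ), i < n → sd 2 d i 0 = w → T i ≠ 0 →
    (spr D d i, T i) ∈ lev D d w T n
  | 0, i, h, _, _ => by omega
  | n + 1, i, h, h1, h2 => by
    have hlev : lev D d w T (n + 1) = Bool.rec (lev D d w T n)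
      (Bool.rec ((spr D d n, T n) :: lev D d w T n) (lev D d w T n) (Nat.beq (T n) 0))
      (Nat.beq (sd 2 d n 0) w) := rfl
    rw [hlev]
    rcases Nat.eq_or_lt_of_le (Nat.le_of_lt_succ h) with rfl | h3
    · have e1 : Nat.beq (sd 2 d i 0) w = true := by rw [h1]; exact Nat.beq_refl w
      have e2 : Nat.beq (T i) 0 = false := by
        rcases h4 : Nat.beq (T i) 0 with _ | _
        · rfl
        · exact absurd (Nat.eq_of_beq_eq_true h4) h2
      rw [e1, e2]
      exact List.mem_cons_self ..
    · have ih := lev_mem D d w T n i h3 h1 h2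
      rcases Nat.beq (sd 2 d n 0) w with _ | _
      · exact ih
      · rcases Nat.beq (T n) 0 with _ | _
        · exact List.mem_cons_of_mem _ ih
        · exact ih

/-- the parity of the number of flags in `col` -/
def par (MG RG col : ℕ) : ℕ := Nat.mod (Nat.mod (Nat.land col MG) RG) 2

/-- the depth first walk over all monomials of the weight vector -/
def ck (xc MG RG : ℕ) (Ls : List (List (ℕ × ℕ))) (acc col s : ℕ) : Bool :=
  List.rec (motive := fun _ => ℕ → ℕ → ℕ → Bool)
    (fun acc col _ => Bool.rec (Nat.beq (par MG RG col) 0) true (Nat.ble xc acc))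
    (fun L _ ih acc col s => List.rec (motive := fun _ => Bool) true
      (fun p _ ih2 => Bool.rec
        (Bool.rec false ih2 (ih (Nat.add acc (Nat.mul s p.1)) (Nat.land col p.2) (Nat.mul 2 s)))
        ih2 (Nat.beq (Nat.land col p.2) 0)) L) Ls acc col s

theorem ck_nil (xc MG RG acc col s : ℕ) : ck xc MG RG [] acc col s =
    Bool.rec (Nat.beq (par MG RG col) 0) true (Nat.ble xc acc) := rfl

/-- the inner loop -/
def ckL (xc MG RG : ℕ) (Ls : List (List (ℕ × ℕ))) (acc col s : ℕ) (L : List (ℕ × ℕ)) : Bool :=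
  List.rec (motive := fun _ => Bool) true
    (fun p _ ih2 => Bool.rec
      (Bool.rec false ih2 (ck xc MG RG Ls (acc + s * p.1) (col &&& p.2) (2 * s)))
      ih2 (Nat.beq (col &&& p.2) 0)) L

theorem ck_cons (xc MG RG acc col s : ℕ) (L : List (ℕ × ℕ)) (Ls : List (List (ℕ × ℕ))) :
    ck xc MG RG (L :: Ls) acc col s = ckL xc MG RG Ls acc col s L := rfl

theorem ckL_cons (xc MG RG acc col s : ℕ) (p : ℕ × ℕ) (L : List (ℕ × ℕ))
    (Ls : List (List (ℕ × ℕ))) : ckL xc MG RG Ls acc col s (p :: L) =
    Bool.rec (Bool.rec false (ckL xc MG RG Ls acc col s L)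
      (ck xc MG RG Ls (acc + s * p.1) (col &&& p.2) (2 * s)))
      (ckL xc MG RG Ls acc col s L) (Nat.beq (col &&& p.2) 0) := rfl

theorem ckL_spec (xc MG RG acc col s : ℕ) (Ls : List (List (ℕ × ℕ))) :
    ∀ (L : List (ℕ × ℕ)), ckL xc MG RG Ls acc col s L = true → ∀ p ∈ L, col &&& p.2 = 0 ∨
      ck xc MG RG Ls (acc + s * p.1) (col &&& p.2) (2 * s) = true
  | [], _, p, hp => by simp at hp
  | q :: L, h, p, hp => by
    rw [ckL_cons] at h
    have key : (col &&& q.2 = 0 ∨ ck xc MG RG Ls (acc + s * q.1) (col &&& q.2) (2 * s) = true) ∧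
        ckL xc MG RG Ls acc col s L = true := by
      rcases h1 : Nat.beq (col &&& q.2) 0 with _ | _
      · rw [h1] at h
        rcases h2 : ck xc MG RG Ls (acc + s * q.1) (col &&& q.2) (2 * s) with _ | _
        · rw [h2] at h; cases h
        · rw [h2] at h; exact ⟨Or.inr rfl, h⟩
      · rw [h1] at h
        exact ⟨Or.inl (Nat.eq_of_beq_eq_true h1), h⟩
    rw [List.mem_cons] at hp
    rcases hp with rfl | hp
    · exact key.1
    · exact ckL_spec xc MG RG acc col s Ls L key.2 p hp

/-- the flags surviving at a monomial -/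
def colf (T : ℕ → ℕ) : List ℕ → (Fin d → ℕ) → ℕ → ℕ
  | [], _, col => col
  | _ :: ws, z, col => colf T ws (fun a => z a / 2) (col &&& T (cod 2 d (fun a => z a % 2)))

theorem colf_zero (T : ℕ → ℕ) : ∀ (ws : List ℕ) (z : Fin d → ℕ), colf T ws z 0 = 0
  | [], _ => rfl
  | w :: ws, z => by
    show colf T ws (fun a => z a / 2) (0 &&& T (cod 2 d (fun a => z a % 2))) = 0
    rw [Nat.zero_and]
    exact colf_zero T ws _

theorem wt_half (z : Fin d → ℕ) (i : ℕ) : wt (fun a => z a / 2) i = wt z (i + 1) := by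
  unfold wt
  refine Finset.sum_congr rfl fun a _ => ?_
  rw [Nat.div_div_eq_div_mul, ← pow_succ']

theorem wt_zero (z : Fin d → ℕ) : wt z 0 = ∑ a, z a % 2 := by
  unfold wt; simp

theorem cod_split (D : ℕ) (z : Fin d → ℕ) :
    cod D d z = cod D d (fun a => z a % 2) + 2 * cod D d (fun a => z a / 2) := by
  have h : z = (fun a => z a % 2) + ((fun a => z a / 2) + (fun a => z a / 2)) := by
    funext a
    simp only [Pi.add_apply]
    omega
  conv_lhs => rw [h, cod_add, cod_add]
  ring

theorem ck_spec {xc MG RG D : ℕ} {T : ℕ → ℕ} : ∀ (ws : List ℕ) (z : Fin d → ℕ) (acc col s : ℕ),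
    (∀ i, wt z i = ws.getD i 0) →
    ck xc MG RG (ws.map (fun w => lev D d w T (2 ^ d))) acc col s = true →
    acc + s * cod D d z < xc → par MG RG (colf T ws z col) = 0
  | [], z, acc, col, s, hz, h, hlt => by
    rw [List.map_nil, ck_nil] at h
    have h1 : Nat.ble xc acc = false := by
      rcases h2 : Nat.ble xc acc with _ | _
      · rfl
      · have := Nat.le_of_ble_eq_true h2; omega
    rw [h1] at h
    exact Nat.eq_of_beq_eq_true h
  | w :: ws, z, acc, col, s, hz, h, hlt => by
    rw [List.map_cons, ck_cons] at h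
    have h0 := hz 0
    rw [wt_zero, List.getD_cons_zero] at h0
    have hlt2 : ∀ a : Fin d, z a % 2 < 2 := fun a => Nat.mod_lt _ (by norm_num)
    show par MG RG (colf T ws (fun a => z a / 2) (col &&& T (cod 2 d (fun a => z a % 2)))) = 0
    have hz' : ∀ i, wt (fun a => z a / 2) i = ws.getD i 0 := by
      intro i
      rw [wt_half, hz (i + 1), List.getD_cons_succ]
    by_cases hT : T (cod 2 d (fun a => z a % 2)) = 0
    · rw [hT, Nat.and_zero, colf_zero]
      unfold par
      show (0 &&& MG) % RG % 2 = 0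
      rw [Nat.zero_and, Nat.zero_mod]
    · have hm := lev_mem D d w T (2 ^ d) (cod 2 d (fun a => z a % 2)) (cod_lt_pow d _ hlt2)
        (by rw [sd_cod (by norm_num) d _ hlt2, h0, zero_add]) hT
      rw [spr_cod D d _ hlt2] at hm
      rcases ckL_spec _ _ _ _ _ _ _ _ h _ hm with h1 | h1
      · simp only at h1
        rw [h1, colf_zero]
        unfold par
        show (0 &&& MG) % RG % 2 = 0
        rw [Nat.zero_and, Nat.zero_mod]
      · refine ck_spec ws (fun a => z a / 2) _ _ _ hz' h1 ?_
        simp only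
        have := cod_split D z
        rw [this] at hlt
        calc acc + s * cod D d (fun a => z a % 2) + 2 * s * cod D d (fun a => z a / 2)
            = acc + s * (cod D d (fun a => z a % 2) + 2 * cod D d (fun a => z a / 2)) := by ring
          _ < xc := hlt

/-! ### parity -/

theorem par_spec_aux (hP : 0 < P) : ∀ (G col : ℕ), G < 2 ^ P - 1 →
    (col &&& mask (2 ^ P) G) % (2 ^ P - 1) =
      ∑ t ∈ Finset.range G, (Nat.testBit col (P * t)).toNat
  | 0, col, _ => by
    show (col &&& 0) % (2 ^ P - 1) = _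
    rw [Nat.and_zero, Finset.range_zero, Finset.sum_empty, Nat.zero_mod]
  | G + 1, col, h => by
    have ih := par_spec_aux hP G (col / 2 ^ P) (by omega)
    have h1 := land_mask_step (B := P) (X := col / 2 ^ P) (a := col % 2 ^ P)
      (M := mask (2 ^ P) G) (s := 0) (Nat.mod_lt _ (by positivity)) hP
    rw [Nat.div_add_mod', pow_zero, Nat.div_one, Nat.div_one, Nat.div_one] at h1
    rw [mask_succ, h1, Finset.sum_range_succ']
    have h2 : ∀ t, (Nat.testBit col (P * (t + 1))).toNat =
        (Nat.testBit (col / 2 ^ P) (P * t)).toNat := by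
      intro t
      rw [Nat.testBit_div_two_pow]
      congr 2
    rw [Finset.sum_congr rfl fun t _ => h2 t, ← ih]
    have h3 : (Nat.testBit col (P * 0)).toNat = col % 2 ^ P % 2 := by
      rw [mul_zero, Nat.testBit_zero]
      have : col % 2 ^ P % 2 = col % 2 := Nat.mod_mod_of_dvd _ (dvd_pow_self 2 (by omega))
      rw [this]
      rcases Nat.mod_two_eq_zero_or_one col with h | h <;> rw [h] <;> rfl
    rw [h3]
    have h4 : (col / 2 ^ P &&& mask (2 ^ P) G) % (2 ^ P - 1) ≤ G := by
      rw [ih]
      calc _ ≤ ∑ t ∈ Finset.range G, 1 := Finset.sum_le_sum fun t _ => by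
            cases Nat.testBit (col / 2 ^ P) (P * t) <;> decide
        _ = G := by simp
    have h5 : col % 2 ^ P % 2 < 2 := Nat.mod_lt _ (by norm_num)
    generalize col / 2 ^ P &&& mask (2 ^ P) G = u at *
    generalize col % 2 ^ P % 2 = v at *
    obtain ⟨K, hK⟩ : ∃ K, 2 ^ P = K + 1 := ⟨2 ^ P - 1, by omega⟩
    rw [hK] at h4 h ⊢
    have h7 : K + 1 - 1 = K := by omega
    rw [h7] at h4 h ⊢
    have h6 : u * (K + 1) + v = K * u + (u + v) := by ring
    rw [h6, Nat.mul_add_mod, Nat.add_mod, Nat.mod_eq_of_lt (show v < K by omega),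
      Nat.mod_eq_of_lt (by omega)]

theorem z2_toNat (b : Bool) : z2 b = ((b.toNat : ℕ) : ZMod 2) := by
  cases b <;> rfl

theorem par_spec {G MG RG col : ℕ} (hP : 0 < P) (hRG : RG = 2 ^ P - 1) (hG : G < RG)
    (hMG : MG = mask (2 ^ P) G) :
    ((par MG RG col : ℕ) : ZMod 2) = ∑ t ∈ Finset.range G, z2 (Nat.testBit col (P * t)) := by
  unfold par
  show (((col &&& MG) % RG % 2 : ℕ) : ZMod 2) = _
  rw [hRG] at hG ⊢
  rw [hMG, par_spec_aux hP G col hG]
  rw [ZMod.natCast_mod, Nat.cast_sum]
  exact Finset.sum_congr rfl fun t _ => (z2_toNat _).symm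

/-! ### the functional -/

theorem prod_bits (I : Fin d → Finset (Fin m)) (z : Fin d → ℕ) :
    ∃ A : Finset (Fin d), (fun a => z a % 2) = chi A ∧ A.card = wt z 0 ∧
      ∏ a, lf I a ^ (z a % 2) = ∏ a ∈ A, lf I a := by
  classical
  refine ⟨Finset.univ.filter fun a => z a % 2 = 1, ?_, ?_, ?_⟩
  · funext a
    unfold chi
    simp only [Finset.mem_filter, Finset.mem_univ, true_and]
    split_ifs with h
    · exact h
    · omega
  · rw [wt_zero, Finset.card_filter]
    refine Finset.sum_congr rfl fun a _ => ?_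
    split_ifs with h
    · exact h.symm
    · omega
  · rw [Finset.prod_filter]
    refine Finset.prod_congr rfl fun a _ => ?_
    split_ifs with h
    · rw [h, pow_one]
    · have : z a % 2 = 0 := by omega
      rw [this, pow_zero]

theorem val_spec {cols : List (List ℕ)} {T : ℕ → ℕ} (H : Tab d m G P cols T) {t : ℕ}
    (ht : t < G) : ∀ (ws : List ℕ) (z : Fin d → ℕ) (col : ℕ), (∀ w ∈ ws, w ≤ m) →
    (∀ i, wt z i = ws.getD i 0) →
    z2 (Nat.testBit (colf T ws z col) (P * t)) = z2 (Nat.testBit col (P * t)) *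
      cf (sE m ws) (∏ a, lf (Ic m P cols t) a ^ z a)
  | [], z, col, _, hz => by
    have h0 : ∀ a, z a = 0 := by
      intro a
      by_contra h
      obtain ⟨s, hs⟩ := exists_bit h
      have h1 := hz s
      rw [List.getD_nil] at h1
      unfold wt at h1
      have h2 := (Finset.sum_eq_zero_iff.mp h1) a (Finset.mem_univ a)
      omega
    have h1 : ∏ a, lf (Ic m P cols t) a ^ z a = 1 := by
      refine Finset.prod_eq_one fun a _ => ?_
      rw [h0 a, pow_zero]
    rw [h1, one_eq_mono, cf_mono, if_pos (by rfl), mul_one]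
    rfl
  | w :: ws, z, col, hw, hz => by
    have h0 := hz 0
    rw [List.getD_cons_zero] at h0
    have hz' : ∀ i, wt (fun a => z a / 2) i = ws.getD i 0 := by
      intro i
      rw [wt_half, hz (i + 1), List.getD_cons_succ]
    have hwm := hw w (List.mem_cons_self ..)
    have ih := val_spec H ht ws (fun a => z a / 2) (col &&& T (cod 2 d (fun a => z a % 2)))
      (fun w hw' => hw w (List.mem_cons_of_mem _ hw')) hz'
    show z2 (Nat.testBit (colf T ws (fun a => z a / 2) (col &&& T (cod 2 d (fun a => z a % 2))))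
      (P * t)) = _
    rw [ih, step_eq _ hwm ws z h0, Nat.testBit_and, z2_and]
    obtain ⟨A, hA1, hA2, hA3⟩ := prod_bits (Ic m P cols t) z
    rw [hA1, hA3, tab_spec H ht w A (by rw [hA2, h0]) hwm]
    ring

theorem val_lt (I : Fin d → Finset (Fin m)) : ∀ (ws : List ℕ) (z : Fin d → ℕ),
    (∀ w ∈ ws, w ≤ m) → LexLT (wt z) (fun i => ws.getD i 0) →
    cf (sE m ws) (∏ a, lf I a ^ z a) = 0
  | [], z, _, h => by
    obtain ⟨i, _, hi⟩ := h
    simp at hi
  | w :: ws, z, hw, h => by
    obtain ⟨i, hi1, hi2⟩ := h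
    have hwm := hw w (List.mem_cons_self ..)
    rcases Nat.eq_zero_or_pos i with rfl | hpos
    · simp only [List.getD_cons_zero] at hi2
      exact step_lt I hwm ws z hi2
    · obtain ⟨i, rfl⟩ : ∃ i', i = i' + 1 := ⟨i - 1, by omega⟩
      have h0 := hi1 0 (by omega)
      simp only [List.getD_cons_zero] at h0
      have hlex : LexLT (wt (fun a => z a / 2)) (fun i => ws.getD i 0) := by
        refine ⟨i, fun l hl => ?_, ?_⟩
        · rw [wt_half]
          have := hi1 (l + 1) (by omega)
          simp only [List.getD_cons_succ] at this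
          exact this
        · rw [wt_half]
          simp only [List.getD_cons_succ] at hi2
          exact hi2
      rw [step_eq I hwm ws z h0, val_lt I ws (fun a => z a / 2)
        (fun w hw' => hw w (List.mem_cons_of_mem _ hw')) hlex, mul_zero]

/-- the data of a flag certificate -/
structure FCert (d m B G P n : ℕ) (x : Fin d → ℕ) (ws : List ℕ) (cols : List (List ℕ))
    (T : ℕ → ℕ) (Ls : List (List (ℕ × ℕ))) (xc MG RG : ℕ) : Prop where
  tab : Tab d m G P cols T
  hP : 0 < P
  hRG : RG = 2 ^ P - 1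
  hLs : Ls = ws.map (fun w => lev (2 ^ B) d w T (2 ^ d))
  hxc : xc = cod (2 ^ B) d x
  hMG : MG = mask (2 ^ P) G
  hG : G < RG
  hws : ws = (List.range n).map (fun i => wt x i)
  hnB : n ≤ B
  hxn : ∀ a, x a < 2 ^ n
  hwm : ∀ w ∈ ws, w ≤ m
  spike : ∀ j : Fin m, ∃ a ∈ Finset.range (n + 1), sE m ws j = 2 ^ a - 1
  walk : ck xc MG RG Ls 0 MG 1 = true
  px : par MG RG (colf T ws x MG) = 1

theorem FCert.adm {n : ℕ} {x : Fin d → ℕ} {ws : List ℕ} {cols : List (List ℕ)}
    {T : ℕ → ℕ} {Ls : List (List (ℕ × ℕ))} {xc MG RG : ℕ}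
    (H : FCert d m B G P n x ws cols T Ls xc MG RG) : Adm x := by
  intro hin
  have hget : ∀ i, ws.getD i 0 = wt x i := by
    intro i
    rw [H.hws]
    by_cases hi : i < n
    · rw [List.getD_eq_getElem _ _ (by simpa using hi)]
      simp
    · rw [List.getD_eq_default _ _ (by simpa using hi)]
      unfold wt
      symm
      refine Finset.sum_eq_zero fun a _ => ?_
      rw [Nat.div_eq_of_lt (lt_of_lt_of_le (H.hxn a)
        (Nat.pow_le_pow_right (by norm_num) (by omega))), Nat.zero_mod]
  have hget' : (fun i => ws.getD i 0) = wt x := funext hget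
  -- the functional
  let Φ : MvPolynomial (Fin d) (ZMod 2) →ₗ[ZMod 2] ZMod 2 :=
    ∑ t ∈ Finset.range G, (cf (sE m ws)).comp (ev (Ic m P cols t)).toLinearMap
  have hΦ : ∀ f, Φ f = ∑ t ∈ Finset.range G, cf (sE m ws) (ev (Ic m P cols t) f) := by
    intro f
    show (∑ t ∈ Finset.range G, (cf (sE m ws)).comp (ev (Ic m P cols t)).toLinearMap) f = _
    rw [LinearMap.sum_apply]
    rfl
  have hhits : ∀ f ∈ hits d, Φ f = 0 := by
    intro f hf
    rw [hΦ]
    refine Finset.sum_eq_zero fun t _ => ?_
    refine spike_hits (fun j => ?_) (ev_hits _ hf)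
    obtain ⟨a, _, ha⟩ := H.spike j
    exact ⟨a, ha⟩
  have hMGbit : ∀ t < G, z2 (Nat.testBit MG (P * t)) = 1 := by
    intro t ht
    have hP := H.hP
    have hP2 : 1 < 2 ^ P := Nat.one_lt_two_pow (by omega)
    have h1 : ∀ (G : ℕ) (t : ℕ), t < G → Nat.testBit (mask (2 ^ P) G) (P * t) = true := by
      intro G
      induction G with
      | zero => intro t ht; omega
      | succ G ih =>
        intro t ht
        rw [mask_succ, mul_comm, Nat.testBit_two_pow_mul_add _ hP2]
        rcases Nat.eq_zero_or_pos t with rfl | hpos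
        · simp [hP]
        · obtain ⟨u, rfl⟩ : ∃ u, t = u + 1 := ⟨t - 1, by omega⟩
          have e1 : P * (u + 1) = P * u + P := by ring
          rw [if_neg (by rw [e1]; omega), e1, Nat.add_sub_cancel]
          exact ih u (by omega)
    rw [H.hMG, h1 G t ht]
    rfl
  have hval : ∀ y : Fin d → ℕ, wt y = wt x →
      Φ (mono y) = ((par MG RG (colf T ws y MG) : ℕ) : ZMod 2) := by
    intro y hy
    rw [hΦ, par_spec H.hP H.hRG H.hG H.hMG]
    refine Finset.sum_congr rfl fun t ht => ?_
    rw [Finset.mem_range] at ht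
    rw [val_spec H.tab ht ws y MG H.hwm (by intro i; rw [hy, hget]), hMGbit t ht, one_mul,
      ev_mono]
  have hx : Φ (mono x) = 1 := by
    rw [hval x rfl, H.px]; rfl
  have hlow : ∀ f ∈ msp (fun y => MonLT y x), Φ f = 0 := by
    intro f hf
    induction hf using Submodule.span_induction with
    | zero => rw [map_zero]
    | add a b _ _ ha hb => rw [map_add, ha, hb, add_zero]
    | smul c a _ ha => rw [map_smul, ha, smul_zero]
    | mem a ha =>
      obtain ⟨y, rfl, _, hlt | ⟨hw, hf⟩⟩ := ha
      · rw [hΦ]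
        refine Finset.sum_eq_zero fun t _ => ?_
        rw [ev_mono]
        exact val_lt _ ws y H.hwm (by rw [hget']; exact hlt)
      · rw [hval y hw]
        have hyn : ∀ a, y a < 2 ^ n := by
          intro a
          by_contra hc
          push Not at hc
          have h1 : y a / 2 ^ n ≠ 0 := by
            have := Nat.div_pos hc (by positivity)
            omega
          obtain ⟨s, hs⟩ := exists_bit h1
          rw [Nat.div_div_eq_div_mul, ← pow_add] at hs
          have h2 : wt y (n + s) = 0 := by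
            rw [hw, ← hget, H.hws, List.getD_eq_default _ _ (by simp)]
          unfold wt at h2
          have h3 := (Finset.sum_eq_zero_iff.mp h2) a (Finset.mem_univ a)
          omega
        have hcod : cod (2 ^ B) d y < xc := by
          rw [H.hxc]
          by_contra hc
          push Not at hc
          have hB : (2 : ℕ) ^ n ≤ 2 ^ B := Nat.pow_le_pow_right (by norm_num) H.hnB
          have hyB : ∀ a, y a < 2 ^ B := fun a => lt_of_lt_of_le (hyn a) hB
          have hxB : ∀ a, x a < 2 ^ B := fun a => lt_of_lt_of_le (H.hxn a) hB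
          obtain ⟨i, hi1, hi2⟩ := hf
          rcases Nat.eq_or_lt_of_le hc with h | h
          · have := cod_inj d x y hxB hyB h
            rw [this] at hi2
            exact lt_irrefl _ hi2
          · obtain ⟨j, hj1, hj2⟩ := cod_lt d x y hxB hyB h
            rcases lt_trichotomy i j with hij | hij | hij
            · have := hj1 i hij; omega
            · rw [hij] at hi2; omega
            · have := hi1 j hij; omega
        have h4 := ck_spec (xc := xc) (MG := MG) (D := 2 ^ B) (T := T) ws y 0 MG 1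
          (by intro i; rw [hw, hget]) (by rw [← H.hLs]; exact H.walk)
          (by rw [zero_add, one_mul]; exact hcod)
        rw [h4]; rfl
  rw [Submodule.mem_sup] at hin
  obtain ⟨g, hg, f, hf, hgf⟩ := hin
  have : Φ (mono x) = 0 := by
    rw [← hgf, map_add, hhits g hg, hlow f hf, add_zero]
  rw [hx] at this
  exact one_ne_zero this

end Pool.Agent.CRT99
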