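import Pool.Agent.CRT99.Row

set_option autoImplicit false

/-!
# A kernel checked certificate for inadmissibility

All functions are written with recursors, on natural numbers, so that the kernel can evaluate
them.
-/

namespace Pool.Agent.CRT99

open Pool.Agent.Helper60.Hit Pool.Agent.CTD MvPolynomial

/-! ### the programs -/

/-- `acc` is a lower monomial than `e` -/
def low (ec M R acc : ℕ) (ws : List ℕ) (t : ℕ) : Bool :=
  List.rec (motive := fun _ => ℕ → Bool) (fun _ => Nat.ble (Nat.add acc 1) ec)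
    (fun w _ ih t => Bool.rec true
        (Bool.rec false (ih (Nat.div t 2)) (Nat.ble (Nat.mod (Nat.land t M) R) w))
        (Nat.ble w (Nat.mod (Nat.land t M) R))) ws t

/-- enumeration of the choices of bits -/
def en (ec M R : ℕ) (ws : List ℕ) (z : ℕ) (ps : List (ℕ × ℕ × ℕ)) (k acc : ℕ) (tl : List ℕ) :
    List ℕ :=
  List.rec (motive := fun _ => ℕ → ℕ → List ℕ → List ℕ)
    (fun k acc tl => Bool.rec tl (Bool.rec (acc :: tl) tl (low ec M R acc ws acc)) (Nat.beq k 0))
    (fun p _ ih k acc tl => Bool.rec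
        (Bool.rec (ih k acc tl)
          (Bool.rec (ih k acc tl)
            (ih k acc (ih (Nat.sub k p.2.1) (Nat.add acc p.2.2) tl))
            (Nat.ble p.2.1 k))
          (Nat.beq (Nat.mod (Nat.shiftRight z p.1) 2) 1))
        (Bool.rec (acc :: tl) tl (low ec M R acc ws acc))
        (Nat.beq k 0)) ps k acc tl

/-- the first entries of the weight vector -/
def wk (M R : ℕ) (wj : List ℕ) (t : ℕ) : Bool :=
  List.rec (motive := fun _ => ℕ → Bool) (fun _ => true)
    (fun w _ ih t => Bool.rec false (ih (Nat.div t 2)) (Nat.beq (Nat.mod (Nat.land t M) R) w)) wj t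

/-- the terms of `Sq^k z` which are not lower than `e` -/
def row (ec M R D d N : ℕ) (ws wj : List ℕ) (ps : List (ℕ × ℕ × ℕ)) (k z : ℕ) : List ℕ :=
  Bool.rec [] (Bool.rec [] (en ec M R ws z ps k z []) (wk M R wj z))
    (Nat.beq (sd D d z k) N)

/-- merging with cancellation of equal entries -/
def mg (n : ℕ) (a b : List ℕ) : List ℕ :=
  Nat.rec (motive := fun _ => List ℕ → List ℕ → List ℕ) (fun a b => a ++ b)
    (fun _ ih a b => List.rec (motive := fun _ => List ℕ) b
      (fun x xs _ => List.rec (motive := fun _ => List ℕ) (x :: xs)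
        (fun y ys _ => Bool.rec (y :: ih (x :: xs) ys)
          (Bool.rec (x :: ih xs (y :: ys)) (ih xs ys) (Nat.ble y x)) (Nat.ble x y)) b) a) n a b

/-- `2 ^ h` rows packed in a number -/
def tree (ec M R D d N fuel S : ℕ) (ws wj : List ℕ) (ps : List (ℕ × ℕ × ℕ)) (k h n : ℕ) : List ℕ :=
  Nat.rec (motive := fun _ => ℕ → List ℕ)
    (fun n => row ec M R D d N ws wj ps k (Nat.mod n (Nat.pow 2 S)))
    (fun h ih n => Bool.rec
      (mg fuel (ih (Nat.mod n (Nat.pow 2 (Nat.mul S (Nat.pow 2 h)))))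
        (ih (Nat.div n (Nat.pow 2 (Nat.mul S (Nat.pow 2 h))))))
      [] (Nat.beq n 0)) h n

/-- equality of lists -/
def leq (a b : List ℕ) : Bool :=
  List.rec (motive := fun _ => List ℕ → Bool)
    (fun b => List.rec (motive := fun _ => Bool) true (fun _ _ _ => false) b)
    (fun x _ ih b => List.rec (motive := fun _ => Bool) false
      (fun y ys _ => Bool.rec false (ih ys) (Nat.beq x y)) b) a b

/-- the weight vector read off the code -/
def wl (M R n t : ℕ) : List ℕ :=
  Nat.rec (motive := fun _ => ℕ → List ℕ) (fun _ => [])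
    (fun _ ih t => Nat.mod (Nat.land t M) R :: ih (Nat.div t 2)) n t

/-- the data of a target monomial -/
structure Ctx (B d N : ℕ) (e : Fin d → ℕ) (ec M R D : ℕ) (ws : List ℕ) : Prop where
  hD : D = 2 ^ B
  hec : ec = cod (2 ^ B) d e
  hM : M = mask (2 ^ B) d
  hR : R = 2 ^ B - 1
  hws : ws = wl M R B ec
  hN : ∑ i, e i = N
  hNB : N < 2 ^ B
  hd : d < 2 ^ B - 1

variable {B d N ec M R D : ℕ} {e : Fin d → ℕ} {ws : List ℕ}

theorem lt_of_sum {y : Fin d → ℕ} {n K : ℕ} (h : ∑ i, y i = n) (hn : n < K) (i : Fin d) :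
    y i < K := by
  have : y i ≤ ∑ i, y i :=
    Finset.single_le_sum (f := y) (fun _ _ => Nat.zero_le _) (Finset.mem_univ i)
  omega

theorem low_nil (acc t : ℕ) : low ec M R acc [] t = Nat.ble (acc + 1) ec := rfl

theorem low_cons (acc t w : ℕ) (ws : List ℕ) : low ec M R acc (w :: ws) t =
    Bool.rec true (Bool.rec false (low ec M R acc ws (t / 2)) (Nat.ble ((t &&& M) % R) w))
      (Nat.ble w ((t &&& M) % R)) := rfl

theorem low_cases (acc t w : ℕ) (ws : List ℕ) (h : low ec M R acc (w :: ws) t = true) :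
    (t &&& M) % R < w ∨ ((t &&& M) % R = w ∧ low ec M R acc ws (t / 2) = true) := by
  rw [low_cons] at h
  rcases h1 : Nat.ble w ((t &&& M) % R) with _ | _
  · left
    by_contra hc
    rw [Nat.ble_eq_true_of_le (by omega)] at h1
    cases h1
  · rw [h1] at h
    rcases h2 : Nat.ble ((t &&& M) % R) w with _ | _
    · rw [h2] at h; cases h
    · rw [h2] at h
      exact Or.inr ⟨le_antisymm (Nat.le_of_ble_eq_true h2) (Nat.le_of_ble_eq_true h1), h⟩

theorem low_spec_aux (hR : R = 2 ^ B - 1) (hM : M = mask (2 ^ B) d) (hd : d < 2 ^ B - 1)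
    {y : Fin d → ℕ} (hy : ∀ i, y i < 2 ^ B) (he : ∀ i, e i < 2 ^ B) (acc : ℕ) :
    ∀ (m s : ℕ), s + m = B → low ec M R acc (wl M R m (cod (2 ^ B) d e / 2 ^ s))
      (cod (2 ^ B) d y / 2 ^ s) = true →
      (∃ i, s ≤ i ∧ i < B ∧ (∀ l, s ≤ l → l < i → wt y l = wt e l) ∧ wt y i < wt e i) ∨
      ((∀ l, s ≤ l → l < B → wt y l = wt e l) ∧ acc < ec)
  | 0, s, hs, h => by
    right
    refine ⟨fun l h1 h2 => by omega, ?_⟩
    have h3 : Nat.ble (acc + 1) ec = true := h
    exact Nat.le_of_ble_eq_true h3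
  | m + 1, s, hs, h => by
    have hsB : s < B := by omega
    have e1 : (cod (2 ^ B) d e / 2 ^ s &&& M) % R = wt e s := by
      rw [hM, hR]; exact wt_cod hd e s he hsB
    have e2 : (cod (2 ^ B) d y / 2 ^ s &&& M) % R = wt y s := by
      rw [hM, hR]; exact wt_cod hd y s hy hsB
    have h' : low ec M R acc ((cod (2 ^ B) d e / 2 ^ s &&& M) % R ::
        wl M R m (cod (2 ^ B) d e / 2 ^ s / 2)) (cod (2 ^ B) d y / 2 ^ s) = true := h
    rcases low_cases _ _ _ _ h' with h1 | ⟨h1, h2⟩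
    · left
      rw [e1, e2] at h1
      exact ⟨s, le_rfl, hsB, fun l h3 h4 => by omega, h1⟩
    · rw [e1, e2] at h1
      rw [Nat.div_div_eq_div_mul, Nat.div_div_eq_div_mul, ← pow_succ] at h2
      rcases low_spec_aux hR hM hd hy he acc m (s + 1) (by omega) h2 with
        ⟨i, h3, h4, h5, h6⟩ | ⟨h3, h4⟩
      · left
        refine ⟨i, by omega, h4, fun l h7 h8 => ?_, h6⟩
        rcases Nat.eq_or_lt_of_le h7 with h9 | h9
        · rw [← h9]; exact h1
        · exact h5 l h9 h8
      · right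
        refine ⟨fun l h7 h8 => ?_, h4⟩
        rcases Nat.eq_or_lt_of_le h7 with h9 | h9
        · rw [← h9]; exact h1
        · exact h3 l h9 h8

theorem wt_big {y : Fin d → ℕ} (hy : ∀ i, y i < 2 ^ B) {l : ℕ} (hl : B ≤ l) : wt y l = 0 := by
  unfold wt
  refine Finset.sum_eq_zero fun i _ => ?_
  rw [Nat.div_eq_of_lt (lt_of_lt_of_le (hy i) (Nat.pow_le_pow_right (by norm_num) hl)),
    Nat.zero_mod]

theorem low_spec (C : Ctx B d N e ec M R D ws) {y : Fin d → ℕ} (hy : ∑ i, y i = N)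
    (h : low ec M R (cod (2 ^ B) d y) ws (cod (2 ^ B) d y) = true) : MonLT y e := by
  have hyB := fun i => lt_of_sum hy C.hNB i
  have heB := fun i => lt_of_sum C.hN C.hNB i
  have h1 := low_spec_aux (ec := ec) C.hR C.hM C.hd hyB heB (cod (2 ^ B) d y) B 0 (by omega)
  rw [pow_zero, Nat.div_one, Nat.div_one, ← C.hec, ← C.hws] at h1
  refine ⟨by rw [hy, C.hN], ?_⟩
  rcases h1 h with ⟨i, _, h4, h5, h6⟩ | ⟨h3, h4⟩
  · exact Or.inl ⟨i, fun l hl => h5 l (by omega) hl, h6⟩
  · right
    refine ⟨?_, ?_⟩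
    · funext l
      rcases lt_or_ge l B with hl | hl
      · exact h3 l (by omega) hl
      · rw [wt_big hyB hl, wt_big heB hl]
    · rw [C.hec] at h4
      exact cod_lt d y e hyB heB h4

/-! ### enumeration -/

/-- kernel form of a position -/
def enc (B d : ℕ) (p : Fin d × ℕ) : ℕ × ℕ × ℕ :=
  (p.2 + B * (d - 1 - (p.1 : ℕ)), 2 ^ p.2, 2 ^ (p.2 + B * (d - 1 - (p.1 : ℕ))))

/-- the sum of the monomials of a list -/
noncomputable def pol (zs : List (Fin d → ℕ)) : MvPolynomial (Fin d) (ZMod 2) :=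
  (zs.map mono).sum

theorem pol_nil : pol ([] : List (Fin d → ℕ)) = 0 := rfl

theorem pol_cons (z : Fin d → ℕ) (zs : List (Fin d → ℕ)) : pol (z :: zs) = mono z + pol zs := by
  unfold pol; rw [List.map_cons, List.sum_cons]

theorem pol_append (zs ys : List (Fin d → ℕ)) : pol (zs ++ ys) = pol zs + pol ys := by
  unfold pol; rw [List.map_append, List.sum_append]

theorem leaf_spec (C : Ctx B d N e ec M R D ws) {A : Fin d → ℕ} (hA : ∑ i, A i = N)
    (tl : List ℕ) : ∃ zs : List (Fin d → ℕ),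
      (Bool.rec (cod (2 ^ B) d A :: tl) tl (low ec M R (cod (2 ^ B) d A) ws (cod (2 ^ B) d A)) :
        List ℕ) = zs.map (cod (2 ^ B) d) ++ tl ∧ (∀ y ∈ zs, ∑ i, y i = N) ∧
      mono A - pol zs ∈ msp (fun y => MonLT y e) := by
  rcases h : low ec M R (cod (2 ^ B) d A) ws (cod (2 ^ B) d A) with _ | _
  · refine ⟨[A], rfl, ?_, ?_⟩
    · intro y hy; rw [List.mem_singleton] at hy; rw [hy]; exact hA
    · rw [pol_cons, pol_nil, add_zero, sub_self]; exact Submodule.zero_mem _
  · refine ⟨[], rfl, ?_, ?_⟩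
    · intro y hy; cases hy
    · rw [pol_nil, sub_zero]; exact mono_mem_msp (low_spec C hA h)

theorem en_nil (z k acc : ℕ) (tl : List ℕ) : en ec M R ws z [] k acc tl =
    Bool.rec tl (Bool.rec (acc :: tl) tl (low ec M R acc ws acc)) (Nat.beq k 0) := rfl

theorem en_cons (z k acc : ℕ) (tl : List ℕ) (p : ℕ × ℕ × ℕ) (ps : List (ℕ × ℕ × ℕ)) :
    en ec M R ws z (p :: ps) k acc tl =
    Bool.rec
        (Bool.rec (en ec M R ws z ps k acc tl)
          (Bool.rec (en ec M R ws z ps k acc tl)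
            (en ec M R ws z ps k acc (en ec M R ws z ps (k - p.2.1) (acc + p.2.2) tl))
            (Nat.ble p.2.1 k))
          (Nat.beq (z >>> p.1 % 2) 1))
        (Bool.rec (acc :: tl) tl (low ec M R acc ws acc))
        (Nat.beq k 0) := rfl

theorem en_spec (C : Ctx B d N e ec M R D ws) {z : Fin d → ℕ} (hz : ∀ i, z i < 2 ^ B) :
    ∀ (ps : List (Fin d × ℕ)), (∀ p ∈ ps, p.2 < B) → ∀ (k : ℕ) (A : Fin d → ℕ) (tl : List ℕ),
      ∑ i, A i + k = N → ∃ zs : List (Fin d → ℕ),
      en ec M R ws (cod (2 ^ B) d z) (ps.map (enc B d)) k (cod (2 ^ B) d A) tl =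
        zs.map (cod (2 ^ B) d) ++ tl ∧ (∀ y ∈ zs, ∑ i, y i = N) ∧
      F z ps k A - pol zs ∈ msp (fun y => MonLT y e)
  | [], _, k, A, tl, hA => by
    rw [List.map_nil, en_nil]
    rcases Nat.eq_zero_or_pos k with hk | hk
    · subst hk
      rw [F_zero]
      exact leaf_spec C (by omega) tl
    · have : Nat.beq k 0 = false := by
        rcases h : Nat.beq k 0 with _ | _
        · rfl
        · exact absurd (Nat.eq_of_beq_eq_true h) (by omega)
      rw [this, F_nil z (by omega)]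
      refine ⟨[], rfl, ?_, ?_⟩
      · intro y hy; simp at hy
      · rw [pol_nil, sub_zero]; exact Submodule.zero_mem _
  | p :: ps, hps, k, A, tl, hA => by
    have ih := en_spec C hz ps (fun q hq => hps q (List.mem_cons_of_mem _ hq))
    rw [List.map_cons, en_cons]
    rcases Nat.eq_zero_or_pos k with hk | hk
    · subst hk
      rw [F_zero]
      exact leaf_spec C (by omega) tl
    have h0 : Nat.beq k 0 = false := by
      rcases h : Nat.beq k 0 with _ | _
      · rfl
      · exact absurd (Nat.eq_of_beq_eq_true h) (by omega)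
    rw [h0]
    have hbit : cod (2 ^ B) d z >>> (enc B d p).1 % 2 = z p.1 / 2 ^ p.2 % 2 :=
      bit_cod d z p.1 p.2 hz (hps p (List.mem_cons_self ..))
    rw [hbit]
    rcases h1 : Nat.beq (z p.1 / 2 ^ p.2 % 2) 1 with _ | _
    · have : ¬ z p.1 / 2 ^ p.2 % 2 = 1 := by
        intro h; rw [h] at h1; cases h1
      rw [F_skip z p ps k A this]
      exact ih k A tl hA
    have h1' := Nat.eq_of_beq_eq_true h1
    have hv : (enc B d p).2.1 = 2 ^ p.2 := rfl
    rw [hv]
    rcases h2 : Nat.ble (2 ^ p.2) k with _ | _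
    · have : k < 2 ^ p.2 := by
        by_contra hc
        rw [Nat.ble_eq_true_of_le (by omega)] at h2
        cases h2
      rw [F_big z p ps k A this]
      exact ih k A tl hA
    have h2' := Nat.le_of_ble_eq_true h2
    rw [F_take z p ps k A h1' h2']
    have hc : cod (2 ^ B) d A + (enc B d p).2.2 =
        cod (2 ^ B) d (A + Pi.single p.1 (2 ^ p.2)) := by
      rw [cod_add, cod_single]
      congr 1
      show 2 ^ (p.2 + B * (d - 1 - (p.1 : ℕ))) = _
      rw [pow_add, pow_mul]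
    rw [hc]
    have hdeg : ∑ i, (A + Pi.single p.1 (2 ^ p.2) : Fin d → ℕ) i + (k - 2 ^ p.2) = N := by
      simp only [Pi.add_apply]
      rw [Finset.sum_add_distrib, Finset.sum_pi_single', if_pos (Finset.mem_univ _)]
      omega
    obtain ⟨ys, hys1, hys2, hys3⟩ := ih (k - 2 ^ p.2) (A + Pi.single p.1 (2 ^ p.2)) tl hdeg
    obtain ⟨xs, hxs1, hxs2, hxs3⟩ := ih k A (ys.map (cod (2 ^ B) d) ++ tl) hA
    refine ⟨xs ++ ys, ?_, ?_, ?_⟩
    · show en ec M R ws (cod (2 ^ B) d z) (ps.map (enc B d)) k (cod (2 ^ B) d A)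
        (en ec M R ws (cod (2 ^ B) d z) (ps.map (enc B d)) (k - 2 ^ p.2)
          (cod (2 ^ B) d (A + Pi.single p.1 (2 ^ p.2))) tl) = _
      rw [hys1, hxs1, List.map_append, List.append_assoc]
    · intro y hy
      rw [List.mem_append] at hy
      exact hy.elim (hxs2 y) (hys2 y)
    · rw [pol_append]
      have : F z ps k A + F z ps (k - 2 ^ p.2) (A + Pi.single p.1 (2 ^ p.2)) -
          (pol xs + pol ys) = (F z ps k A - pol xs) +
            (F z ps (k - 2 ^ p.2) (A + Pi.single p.1 (2 ^ p.2)) - pol ys) := by ring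
      rw [this]
      exact Submodule.add_mem _ hxs3 hys3

end Pool.Agent.CRT99
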