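import Pool.Agent.CRT99.Spike

set_option autoImplicit false

/-!
# Tables of minors
-/

namespace Pool.Agent.CRT99

open Pool.Agent.Helper60.Hit Pool.Agent.CTD MvPolynomial

variable {d m : ℕ}

theorem cf_X_mul (s : Fin m → ℕ) (j : Fin m) (P : MvPolynomial (Fin m) (ZMod 2)) :
    cf s (X j * P) = if s j = 0 then 0 else cf (s - Pi.single j 1) P := by
  classical
  rw [cf_apply, coeff_X_mul', cf_apply]
  by_cases h : s j = 0
  · rw [if_pos h, if_neg]
    rw [Finsupp.mem_support_iff, not_not]
    exact h
  · rw [if_neg h, if_pos]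
    · congr 1
      ext l
      rw [Finsupp.tsub_apply]
      show s l - (Finsupp.single j 1) l = (s - Pi.single j 1 : Fin m → ℕ) l
      rw [Pi.sub_apply, Finsupp.single_eq_pi_single]
    · rw [Finsupp.mem_support_iff]
      exact h

theorem cf_lf_mul (I : Fin d → Finset (Fin m)) (b : Fin d) (s : Fin m → ℕ)
    (P : MvPolynomial (Fin m) (ZMod 2)) :
    cf s (lf I b * P) = ∑ j ∈ I b, if s j = 0 then 0 else cf (s - Pi.single j 1) P := by
  unfold lf
  rw [Finset.sum_mul, map_sum]
  exact Finset.sum_congr rfl fun j _ => cf_X_mul s j P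

/-- expansion along the last column -/
theorem expand (I : Fin d → Finset (Fin m)) (j0 : Fin m) (A : Finset (Fin d)) :
    ∀ t : Fin m → ℕ, t j0 = 0 → cf (t + Pi.single j0 1) (∏ a ∈ A, lf I a) =
      ∑ a ∈ A, if j0 ∈ I a then cf t (∏ b ∈ A.erase a, lf I b) else 0 := by
  classical
  induction A using Finset.induction_on with
  | empty =>
    intro t ht
    rw [Finset.prod_empty, Finset.sum_empty, one_eq_mono, cf_mono, if_neg]
    intro h
    have := congrFun h j0
    simp only [Pi.zero_apply, Pi.add_apply, Pi.single_eq_same] at this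
    omega
  | insert b A hb ih =>
    intro t ht
    rw [Finset.prod_insert hb, cf_lf_mul, Finset.sum_insert hb, Finset.erase_insert hb]
    have e1 : ∀ j ∈ I b, (if (t + Pi.single j0 1 : Fin m → ℕ) j = 0 then 0 else
        cf (t + Pi.single j0 1 - Pi.single j 1) (∏ a ∈ A, lf I a)) =
        (if j = j0 then cf t (∏ a ∈ A, lf I a) else 0) +
        ∑ a ∈ A, if j0 ∈ I a then
          (if t j = 0 then 0 else cf (t - Pi.single j 1) (∏ b ∈ A.erase a, lf I b)) else 0 := by
      intro j _
      by_cases hj : j = j0
      · subst hj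
        have e2 : (t + Pi.single j 1 : Fin m → ℕ) j ≠ 0 := by
          simp only [Pi.add_apply, Pi.single_eq_same]; omega
        have e3 : (t + Pi.single j 1 - Pi.single j 1 : Fin m → ℕ) = t := by
          funext l; simp
        rw [if_neg e2, e3, if_pos rfl, Finset.sum_eq_zero, add_zero]
        intro a _
        split_ifs <;> rfl
      · have e2 : (t + Pi.single j0 1 : Fin m → ℕ) j = t j := by
          simp only [Pi.add_apply]
          rw [Pi.single_eq_of_ne hj, add_zero]
        rw [e2, if_neg hj, zero_add]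
        by_cases htj : t j = 0
        · rw [if_pos htj, Finset.sum_eq_zero]
          intro a _
          split_ifs <;> rfl
        · have e3 : (t + Pi.single j0 1 - Pi.single j 1 : Fin m → ℕ) =
              (t - Pi.single j 1) + Pi.single j0 1 := by
            funext l
            simp only [Pi.add_apply, Pi.sub_apply]
            by_cases hl : l = j
            · subst hl
              rw [Pi.single_eq_same, Pi.single_eq_of_ne hj]
              omega
            · rw [Pi.single_eq_of_ne hl]; omega
          have e4 : (t - Pi.single j 1 : Fin m → ℕ) j0 = 0 := by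
            simp only [Pi.sub_apply]; omega
          rw [if_neg htj, e3, ih _ e4]
          refine Finset.sum_congr rfl fun a _ => ?_
          rw [if_neg htj]
    rw [Finset.sum_congr rfl e1, Finset.sum_add_distrib]
    congr 1
    · rw [Finset.sum_ite_eq']
    · rw [Finset.sum_comm]
      refine Finset.sum_congr rfl fun a ha => ?_
      have hab : b ≠ a := fun h => hb (h ▸ ha)
      have e5 : (insert b A).erase a = insert b (A.erase a) := by
        rw [Finset.erase_insert_of_ne hab]
      have e6 : b ∉ A.erase a := fun h => hb (Finset.mem_of_mem_erase h)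
      rw [e5, Finset.prod_insert e6, cf_lf_mul]
      by_cases h : j0 ∈ I a
      · simp only [if_pos h]
      · simp only [if_neg h, Finset.sum_const_zero]

/-! ### bits as elements of the field -/

/-- a bit as an element of the field with two elements -/
def z2 (b : Bool) : ZMod 2 := if b then 1 else 0

theorem z2_xor (a b : Bool) : z2 (a ^^ b) = z2 a + z2 b := by
  cases a <;> cases b <;> decide

theorem z2_and (a b : Bool) : z2 (a && b) = z2 a * z2 b := by
  cases a <;> cases b <;> decide

/-- expansion of a table entry: `row` = the entries of one column, last variable first -/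
def fx (T : ℕ → ℕ) (i : ℕ) (row : List ℕ) (s acc : ℕ) : ℕ :=
  List.rec (motive := fun _ => ℕ → ℕ → ℕ) (fun _ acc => acc)
    (fun g _ ih s acc => ih (Nat.add s 1)
      (Bool.rec acc (Nat.xor acc (Nat.land g (T (Nat.sub i (Nat.pow 2 s)))))
        (Nat.beq (Nat.mod (Nat.shiftRight i s) 2) 1))) row s acc

theorem fx_cons (T : ℕ → ℕ) (i g : ℕ) (row : List ℕ) (s acc : ℕ) :
    fx T i (g :: row) s acc = fx T i row (s + 1)
      (Bool.rec acc (acc ^^^ (g &&& T (i - 2 ^ s))) (Nat.beq (i >>> s % 2) 1)) := rfl

theorem fx_spec (T : ℕ → ℕ) (i k : ℕ) : ∀ (row : List ℕ) (s acc : ℕ),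
    z2 (Nat.testBit (fx T i row s acc) k) = z2 (Nat.testBit acc k) +
      ∑ l ∈ Finset.range row.length, if i >>> (s + l) % 2 = 1 then
        z2 (Nat.testBit (row.getD l 0) k) * z2 (Nat.testBit (T (i - 2 ^ (s + l))) k) else 0
  | [], s, acc => by
    rw [List.length_nil, Finset.range_zero, Finset.sum_empty, add_zero]; rfl
  | g :: row, s, acc => by
    rw [fx_cons, fx_spec T i k row (s + 1), List.length_cons, Finset.sum_range_succ']
    have e : ∀ l, (if i >>> (s + 1 + l) % 2 = 1 then
        z2 (Nat.testBit (row.getD l 0) k) * z2 (Nat.testBit (T (i - 2 ^ (s + 1 + l))) k) else 0) =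
        if i >>> (s + (l + 1)) % 2 = 1 then
        z2 (Nat.testBit ((g :: row).getD (l + 1) 0) k) *
          z2 (Nat.testBit (T (i - 2 ^ (s + (l + 1)))) k) else 0 := by
      intro l
      rw [List.getD_cons_succ]
      have : s + 1 + l = s + (l + 1) := by omega
      rw [this]
    rw [Finset.sum_congr rfl fun l _ => e l, List.getD_cons_zero, add_zero]
    rcases h : Nat.beq (i >>> s % 2) 1 with _ | _
    · have h1 : ¬ i >>> s % 2 = 1 := by
        intro h1; rw [h1] at h; cases h
      rw [if_neg h1, add_zero]
    · have h1 := Nat.eq_of_beq_eq_true h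
      rw [if_pos h1]
      show z2 (Nat.testBit (acc ^^^ (g &&& T (i - 2 ^ s))) k) + _ = _
      rw [Nat.testBit_xor, z2_xor, Nat.testBit_and, z2_and]
      ring

/-- indicator function -/
def chi (A : Finset (Fin d)) : Fin d → ℕ := fun a => if a ∈ A then 1 else 0

theorem chi_sum (A : Finset (Fin d)) : ∑ a, chi A a = A.card := by
  unfold chi
  rw [Finset.sum_ite_mem, Finset.univ_inter, Finset.sum_const, smul_eq_mul, mul_one]

theorem chi_lt (A : Finset (Fin d)) (a : Fin d) : chi A a < 2 := by
  unfold chi; split_ifs <;> norm_num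

theorem chi_erase (A : Finset (Fin d)) {a : Fin d} (ha : a ∈ A) :
    chi A = chi (A.erase a) + Pi.single a 1 := by
  classical
  funext b
  unfold chi
  simp only [Pi.add_apply]
  by_cases h : b = a
  · subst h
    rw [if_pos ha, Pi.single_eq_same, if_neg (Finset.notMem_erase _ _)]
  · rw [Pi.single_eq_of_ne h, add_zero]
    simp only [Finset.mem_erase, ne_eq, h, not_false_eq_true, true_and]

theorem cod_lt_pow {D : ℕ} : ∀ (d : ℕ) (z : Fin d → ℕ), (∀ i, z i < D) → cod D d z < D ^ d
  | 0, _, _ => by simp [cod]
  | d + 1, z, hz => by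
    have h := cod_lt_pow d (fun i => z i.castSucc) (fun i => hz _)
    have h2 := hz (Fin.last d)
    rw [cod_succ, pow_succ]
    have h3 : (cod D d (fun i => z i.castSucc) + 1) * D ≤ D ^ d * D :=
      Nat.mul_le_mul_right _ h
    rw [Nat.add_mul, one_mul] at h3
    omega

/-- the digit sum of a code -/
theorem sd_cod {D : ℕ} (hD : 0 < D) (d : ℕ) (z : Fin d → ℕ) (hz : ∀ i, z i < D) (a : ℕ) :
    sd D d (cod D d z) a = a + ∑ i, z i := by
  obtain ⟨y, hy1, hy2, hy3⟩ := exists_dec hD d (cod D d z) a (cod_lt_pow d z hz)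
  rw [hy3, cod_inj d y z hy2 hz hy1]

/-- the linear forms of flag `t`, read off the table of columns -/
def Ic (m P : ℕ) (cols : List (List ℕ)) (t : ℕ) (a : Fin d) : Finset (Fin m) :=
  Finset.univ.filter fun j => Nat.testBit ((cols.getD j []).getD (d - 1 - (a : ℕ)) 0) (P * t) = true

/-- the table of minors is correct -/
structure Tab (d m G P : ℕ) (cols : List (List ℕ)) (T : ℕ → ℕ) : Prop where
  h0 : ∀ t < G, Nat.testBit (T 0) (P * t) = true
  hlen : ∀ w < m, (cols.getD w []).length = d
  hT : ∀ i < 2 ^ d, ∀ w < m, sd 2 d i 0 = w + 1 → T i = fx T i (cols.getD w []) 0 0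

theorem tab_spec {G P : ℕ} {cols : List (List ℕ)} {T : ℕ → ℕ} (H : Tab d m G P cols T) {t : ℕ}
    (ht : t < G) : ∀ (n : ℕ) (A : Finset (Fin d)), A.card = n → n ≤ m →
      z2 (Nat.testBit (T (cod 2 d (chi A))) (P * t)) =
        cf (ind m n) (∏ a ∈ A, lf (Ic m P cols t) a)
  | 0, A, hA, _ => by
    rw [Finset.card_eq_zero] at hA
    subst hA
    have h1 : chi (∅ : Finset (Fin d)) = 0 := by
      funext a; unfold chi; simp
    have h2 : ind m 0 = 0 := by
      funext j; unfold ind; simp
    rw [h1, cod_zero, H.h0 t ht, Finset.prod_empty, one_eq_mono, cf_mono, h2, if_pos rfl]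
    rfl
  | n + 1, A, hA, hn => by
    classical
    have hn' : n < m := hn
    have hi := cod_lt_pow d (chi A) (chi_lt A)
    have hs : sd 2 d (cod 2 d (chi A)) 0 = n + 1 := by
      rw [sd_cod (by norm_num) d _ (chi_lt A), chi_sum, hA, zero_add]
    rw [H.hT _ hi n hn' hs, fx_spec, Nat.zero_testBit, H.hlen n hn']
    have h1 : z2 false = 0 := rfl
    rw [h1, zero_add]
    have h2 : ind m (n + 1) = ind m n + Pi.single ⟨n, hn'⟩ 1 := by
      funext j
      unfold ind
      simp only [Pi.add_apply]
      by_cases h : j = ⟨n, hn'⟩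
      · subst h
        rw [Pi.single_eq_same]
        simp
      · rw [Pi.single_eq_of_ne h, add_zero]
        have h3 : (j : ℕ) ≠ n := fun hh => h (Fin.ext hh)
        by_cases h4 : (j : ℕ) < n
        · rw [if_pos (by omega), if_pos h4]
        · rw [if_neg (by omega), if_neg h4]
    rw [h2, expand _ _ _ _ (by unfold ind; simp)]
    have h3 : ∀ f : ℕ → ZMod 2, ∑ l ∈ Finset.range d, f l = ∑ a : Fin d, f (d - 1 - (a : ℕ)) := by
      intro f
      rw [← Finset.sum_range_reflect, Finset.sum_range]
    rw [h3]
    have h4 : ∀ a : Fin d, (cod 2 d (chi A)) >>> (0 + (d - 1 - (a : ℕ))) % 2 = chi A a := by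
      intro a
      have := bit_cod (B := 1) d (chi A) a 0 (fun i => by simpa using chi_lt A i) (by norm_num)
      rw [pow_one, one_mul, pow_zero, Nat.div_one, Nat.mod_eq_of_lt (chi_lt A a)] at this
      exact this
    have h5 : ∀ a : Fin d, (if (cod 2 d (chi A)) >>> (0 + (d - 1 - (a : ℕ))) % 2 = 1 then
        z2 (Nat.testBit ((cols.getD n []).getD (d - 1 - (a : ℕ)) 0) (P * t)) *
        z2 (Nat.testBit (T (cod 2 d (chi A) - 2 ^ (0 + (d - 1 - (a : ℕ))))) (P * t)) else 0) =
        if a ∈ A then (if (⟨n, hn'⟩ : Fin m) ∈ Ic m P cols t a then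
          cf (ind m n) (∏ b ∈ A.erase a, lf (Ic m P cols t) b) else 0) else 0 := by
      intro a
      rw [h4]
      by_cases ha : a ∈ A
      · have e1 : chi A a = 1 := by unfold chi; rw [if_pos ha]
        rw [if_pos e1, if_pos ha]
        have e2 : cod 2 d (chi A) - 2 ^ (0 + (d - 1 - (a : ℕ))) = cod 2 d (chi (A.erase a)) := by
          conv_lhs => rw [chi_erase A ha, cod_add, cod_single, one_mul, zero_add]
          omega
        have e3 : (A.erase a).card = n := by rw [Finset.card_erase_of_mem ha, hA]; rfl
        rw [e2, tab_spec H ht n (A.erase a) e3 (by omega)]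
        by_cases h6 : Nat.testBit ((cols.getD n []).getD (d - 1 - (a : ℕ)) 0) (P * t) = true
        · rw [if_pos (by unfold Ic; simp only [Finset.mem_filter, Finset.mem_univ, true_and]; exact h6),
            h6]
          exact one_mul _
        · rw [if_neg (by unfold Ic; simp only [Finset.mem_filter, Finset.mem_univ, true_and]; exact h6)]
          have : Nat.testBit ((cols.getD n []).getD (d - 1 - (a : ℕ)) 0) (P * t) = false := by
            simpa using h6
          rw [this]
          exact zero_mul _
      · have e1 : chi A a = 0 := by unfold chi; rw [if_neg ha]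
        rw [e1, if_neg (by norm_num), if_neg ha]
    rw [Finset.sum_congr rfl fun a _ => h5 a, Finset.sum_ite_mem, Finset.univ_inter]

end Pool.Agent.CRT99
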