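import Pool.Agent.CRT99.Code

set_option autoImplicit false

/-!
# Squares of monomials, enumerated by the bits of the exponents
-/

namespace Pool.Agent.CRT99

open Pool.Agent.Helper60.Hit Pool.Agent.CTD MvPolynomial

variable {d : ℕ}

/-- polynomials in `T` over the polynomial ring -/
abbrev PP (d : ℕ) := Polynomial (MvPolynomial (Fin d) (ZMod 2))

/-- `1 + x_i T` -/
noncomputable def base (i : Fin d) : PP d := 1 + Polynomial.C (X i) * Polynomial.X

theorem St_mono_base (z : Fin d → ℕ) :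
    St d (mono z) = Polynomial.C (mono z) * ∏ i, base i ^ z i := by
  rw [mono_eq_prod, map_prod, map_prod, ← Finset.prod_mul_distrib]
  refine Finset.prod_congr rfl fun i _ => ?_
  have h : (Polynomial.C (X i) + Polynomial.C (X i ^ 2) * Polynomial.X : PP d) =
      Polynomial.C (X i) * base i := by
    unfold base
    rw [map_pow]
    ring
  rw [map_pow, St_X, h, mul_pow, ← map_pow]

instance : CharP (PP d) 2 := by infer_instance

theorem base_pow (i : Fin d) (s : ℕ) : base i ^ (2 ^ s) =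
    1 + Polynomial.C (mono (Pi.single i (2 ^ s))) * Polynomial.X ^ (2 ^ s) := by
  unfold base
  rw [add_pow_char_pow, one_pow, mul_pow, ← map_pow, X_pow_eq_mono]

/-- the factor of a position `(i, s)` -/
noncomputable def fac (z : Fin d → ℕ) (p : Fin d × ℕ) : PP d :=
  if z p.1 / 2 ^ p.2 % 2 = 1 then base p.1 ^ (2 ^ p.2) else 1

theorem fac_coeff_zero (z : Fin d → ℕ) (p : Fin d × ℕ) : (fac z p).coeff 0 = 1 := by
  unfold fac
  have h : 0 < 2 ^ p.2 := by positivity
  split_ifs
  · rw [base_pow, Polynomial.coeff_add, Polynomial.coeff_C_mul, Polynomial.coeff_X_pow,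
      if_neg (by omega), mul_zero, add_zero, Polynomial.coeff_one_zero]
  · exact Polynomial.coeff_one_zero

/-- the sum over the choices of positions of total value `k` -/
noncomputable def F (z : Fin d → ℕ) (ps : List (Fin d × ℕ)) (k : ℕ) (A : Fin d → ℕ) :
    MvPolynomial (Fin d) (ZMod 2) := mono A * ((ps.map (fac z)).prod).coeff k

theorem F_zero (z : Fin d → ℕ) (ps : List (Fin d × ℕ)) (A : Fin d → ℕ) :
    F z ps 0 A = mono A := by
  have h : ∀ ps : List (Fin d × ℕ), ((ps.map (fac z)).prod).coeff 0 = 1 := by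
    intro ps
    induction ps with
    | nil => simp
    | cons p ps ih =>
      rw [List.map_cons, List.prod_cons, Polynomial.mul_coeff_zero, ih, fac_coeff_zero, mul_one]
  unfold F
  rw [h, mul_one]

theorem F_nil (z : Fin d → ℕ) {k : ℕ} (hk : k ≠ 0) (A : Fin d → ℕ) : F z [] k A = 0 := by
  unfold F
  rw [List.map_nil, List.prod_nil, Polynomial.coeff_one, if_neg hk, mul_zero]

theorem F_skip (z : Fin d → ℕ) (p : Fin d × ℕ) (ps : List (Fin d × ℕ)) (k : ℕ) (A : Fin d → ℕ)
    (h : ¬ z p.1 / 2 ^ p.2 % 2 = 1) : F z (p :: ps) k A = F z ps k A := by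
  unfold F
  rw [List.map_cons, List.prod_cons, fac, if_neg h, one_mul]

theorem F_big (z : Fin d → ℕ) (p : Fin d × ℕ) (ps : List (Fin d × ℕ)) (k : ℕ) (A : Fin d → ℕ)
    (h : k < 2 ^ p.2) : F z (p :: ps) k A = F z ps k A := by
  unfold F
  rw [List.map_cons, List.prod_cons, fac]
  split_ifs
  · rw [base_pow, add_mul, one_mul, Polynomial.coeff_add, mul_assoc, Polynomial.coeff_C_mul,
      Polynomial.coeff_X_pow_mul', if_neg (by omega), mul_zero, add_zero]
  · rw [one_mul]

theorem F_take (z : Fin d → ℕ) (p : Fin d × ℕ) (ps : List (Fin d × ℕ)) (k : ℕ) (A : Fin d → ℕ)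
    (h : z p.1 / 2 ^ p.2 % 2 = 1) (hk : 2 ^ p.2 ≤ k) : F z (p :: ps) k A =
      F z ps k A + F z ps (k - 2 ^ p.2) (A + Pi.single p.1 (2 ^ p.2)) := by
  unfold F
  rw [List.map_cons, List.prod_cons, fac, if_pos h, base_pow, add_mul, one_mul,
    Polynomial.coeff_add, mul_assoc, Polynomial.coeff_C_mul, Polynomial.coeff_X_pow_mul',
    if_pos hk, mono_add]
  ring

/-- the levels `j + m - 1, ..., j` -/
def lv (j : ℕ) : ℕ → List ℕ
  | 0 => []
  | m + 1 => (j + m) :: lv j m

theorem lv_prod (z : Fin d → ℕ) (i : Fin d) (j : ℕ) : ∀ m : ℕ,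
    ((lv j m).map (fun s => fac z (i, s))).prod = base i ^ (z i % 2 ^ (j + m) / 2 ^ j * 2 ^ j)
  | 0 => by
    rw [lv, List.map_nil, List.prod_nil, add_zero,
      Nat.div_eq_of_lt (Nat.mod_lt _ (by positivity)), zero_mul, pow_zero]
  | m + 1 => by
    rw [lv, List.map_cons, List.prod_cons, lv_prod z i j m]
    have h1 : z i % 2 ^ (j + (m + 1)) = z i % 2 ^ (j + m) + 2 ^ (j + m) * (z i / 2 ^ (j + m) % 2) := by
      rw [← add_assoc, pow_succ, Nat.mod_mul]
    have h2 : 2 ^ (j + m) * (z i / 2 ^ (j + m) % 2) = 2 ^ j * (2 ^ m * (z i / 2 ^ (j + m) % 2)) := by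
      rw [pow_add]; ring
    have h3 : z i % 2 ^ (j + (m + 1)) / 2 ^ j * 2 ^ j =
        z i % 2 ^ (j + m) / 2 ^ j * 2 ^ j + 2 ^ (j + m) * (z i / 2 ^ (j + m) % 2) := by
      rw [h1, h2, Nat.add_mul_div_left _ _ (by positivity)]
      ring
    rw [h3, pow_add (base i), mul_comm]
    congr 1
    show fac z (i, j + m) = _
    unfold fac
    show (if z i / 2 ^ (j + m) % 2 = 1 then base i ^ (2 ^ (j + m)) else 1) = _
    split_ifs with h
    · rw [h, mul_one]
    · have : z i / 2 ^ (j + m) % 2 = 0 := by omega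
      rw [this, mul_zero, pow_zero]

/-- all positions with levels `j, ..., j + m - 1` -/
def poss (d j m : ℕ) : List (Fin d × ℕ) :=
  (List.finRange d).flatMap (fun i => (lv j m).map (fun s => (i, s)))

theorem flat_prod {α β : Type*} {R : Type*} [CommMonoid R] (L : List α) (g : α → List β)
    (f : β → R) : ((L.flatMap g).map f).prod = (L.map (fun a => ((g a).map f).prod)).prod := by
  induction L with
  | nil => simp
  | cons a L ih => simp [List.flatMap_cons, ih]

theorem poss_prod (z : Fin d → ℕ) (j m : ℕ) : ((poss d j m).map (fac z)).prod =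
    ∏ i, base i ^ (z i % 2 ^ (j + m) / 2 ^ j * 2 ^ j) := by
  unfold poss
  rw [flat_prod]
  have : ∀ i : Fin d, (((lv j m).map (fun s => (i, s))).map (fac z)).prod =
      base i ^ (z i % 2 ^ (j + m) / 2 ^ j * 2 ^ j) := by
    intro i
    rw [List.map_map, ← lv_prod z i j m]
    rfl
  simp_rw [this]
  rw [Fin.prod_univ_def]

end Pool.Agent.CRT99
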