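import Pool.Agent.CRT99.Poly

set_option autoImplicit false

/-!
# A square of a monomial up to lower monomials

If the first `j` entries of the weight vector of `z` are those of `e`, only the choices of bits
of levels at least `j` matter.
-/

namespace Pool.Agent.CRT99

open Pool.Agent.Helper60.Hit Pool.Agent.CTD MvPolynomial

variable {d : ℕ}

theorem low_wt {z p y : Fin d → ℕ} {j : ℕ}
    (hp : ∀ i s, p i / 2 ^ s % 2 = 1 → z i / 2 ^ s % 2 = 1) (hlt : ∀ i, p i < 2 ^ j)
    (hne : ∃ i, p i ≠ 0) (hy : ∀ i, 2 ^ j ∣ y i) :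
    ∃ s < j, (∀ l < s, wt (z + p + y) l = wt z l) ∧ wt (z + p + y) s < wt z s := by
  classical
  have hex : ∃ s, ∃ i, p i / 2 ^ s % 2 = 1 := by
    obtain ⟨i, hi⟩ := hne
    obtain ⟨s, hs⟩ := exists_bit hi
    exact ⟨s, i, hs⟩
  have hs0 := Nat.find_spec hex
  have hmin : ∀ s' < Nat.find hex, ∀ i, p i / 2 ^ s' % 2 = 0 := by
    intro s' hs' i
    have h1 := Nat.find_min hex hs'
    have h2 : ¬ p i / 2 ^ s' % 2 = 1 := fun h => h1 ⟨i, h⟩
    omega
  generalize Nat.find hex = s at hs0 hmin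
  have hsj : s < j := by
    obtain ⟨i, hi⟩ := hs0
    by_contra hc
    have : p i / 2 ^ s = 0 := Nat.div_eq_of_lt
      (lt_of_lt_of_le (hlt i) (Nat.pow_le_pow_right (by norm_num) (by omega)))
    omega
  have hdv : ∀ i, 2 ^ s ∣ p i := by
    intro i
    have h : ∀ t, t ≤ s → p i % 2 ^ t = 0 := by
      intro t
      induction t with
      | zero => intro _; simp [Nat.mod_one]
      | succ t ih =>
        intro ht
        rw [Nat.mod_pow_succ, ih (by omega), hmin t (by omega) i]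
        simp
    exact Nat.dvd_of_mod_eq_zero (h s le_rfl)
  have key : ∀ i l, l ≤ s → (z i + p i + y i) / 2 ^ l % 2 =
      (z i / 2 ^ l % 2 + p i / 2 ^ l % 2) % 2 := by
    intro i l hl
    obtain ⟨u, hu⟩ := (Nat.pow_dvd_pow 2 hl).trans (hdv i)
    obtain ⟨v, hv⟩ := (Nat.pow_dvd_pow 2 (show l + 1 ≤ j by omega)).trans (hy i)
    have h1 : z i + p i + y i = z i + 2 ^ l * (u + 2 * v) := by
      rw [hu, hv, pow_succ]; ring
    rw [h1, Nat.add_mul_div_left _ _ (by positivity), hu, Nat.mul_div_cancel_left _ (by positivity)]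
    omega
  refine ⟨s, hsj, fun l hl => ?_, ?_⟩
  · unfold wt
    refine Finset.sum_congr rfl fun i _ => ?_
    simp only [Pi.add_apply]
    rw [key i l hl.le, hmin l hl i]
    omega
  · unfold wt
    obtain ⟨i0, hi0⟩ := hs0
    refine Finset.sum_lt_sum (fun i _ => ?_) ⟨i0, Finset.mem_univ _, ?_⟩
    · simp only [Pi.add_apply]
      rw [key i s le_rfl]
      have h2 := hp i s
      have h3 : p i / 2 ^ s % 2 < 2 := Nat.mod_lt _ (by norm_num)
      generalize p i / 2 ^ s % 2 = a at *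
      generalize z i / 2 ^ s = b at *
      omega
    · simp only [Pi.add_apply]
      rw [key i0 s le_rfl, hi0, hp i0 s hi0]
      norm_num

/-- the coefficient of `T ^ b` is a sum of monomials of degree `b` with property `Q` -/
def Co (Q : (Fin d → ℕ) → Prop) (p : PP d) : Prop :=
  ∀ b, p.coeff b ∈ msp (fun y => Q y ∧ ∑ i, y i = b)

theorem Co.mul {Q : (Fin d → ℕ) → Prop} (hQ : ∀ a b, Q a → Q b → Q (a + b)) {p q : PP d}
    (hp : Co Q p) (hq : Co Q q) : Co Q (p * q) := by
  intro b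
  rw [Polynomial.coeff_mul]
  refine Submodule.sum_mem _ fun x hx => ?_
  rw [Finset.HasAntidiagonal.mem_antidiagonal] at hx
  refine msp_mul ?_ (hp x.1) (hq x.2)
  rintro a c ⟨ha, ha2⟩ ⟨hc, hc2⟩
  refine ⟨hQ a c ha hc, ?_⟩
  simp only [Pi.add_apply]
  rw [Finset.sum_add_distrib, ha2, hc2, hx]

theorem Co_one {Q : (Fin d → ℕ) → Prop} (h0 : Q 0) : Co Q 1 := by
  intro b
  rw [Polynomial.coeff_one]
  split_ifs with h
  · rw [one_eq_mono]
    refine mono_mem_msp ⟨h0, ?_⟩
    rw [h]; simp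
  · exact Submodule.zero_mem _

/-- divisibility by `2 ^ j` -/
def Dv (j : ℕ) (y : Fin d → ℕ) : Prop := ∀ i, 2 ^ j ∣ y i

theorem Dv_add {j : ℕ} (a b : Fin d → ℕ) (ha : Dv j a) (hb : Dv j b) : Dv j (a + b) :=
  fun i => (ha i).add (hb i)

theorem Co_base (i : Fin d) (j : ℕ) : Co (Dv j) (base i ^ (2 ^ j)) := by
  classical
  intro b
  have h0 : Dv (d := d) j 0 := fun _ => dvd_zero _
  have h1 : Dv (d := d) j (Pi.single i (2 ^ j)) := by
    intro l
    by_cases h : l = i
    · subst h; rw [Pi.single_eq_same]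
    · rw [Pi.single_eq_of_ne h]; exact dvd_zero _
  rw [base_pow, Polynomial.coeff_add, Polynomial.coeff_C_mul, Polynomial.coeff_X_pow]
  refine Submodule.add_mem _ (Co_one h0 b) ?_
  split_ifs with h
  · rw [mul_one]
    refine mono_mem_msp ⟨h1, ?_⟩
    rw [Finset.sum_pi_single', if_pos (Finset.mem_univ _), h]
  · rw [mul_zero]; exact Submodule.zero_mem _

theorem Co_base_pow (i : Fin d) (j n : ℕ) : Co (Dv j) (base i ^ (n * 2 ^ j)) := by
  rw [mul_comm, pow_mul]
  generalize hb : base i ^ (2 ^ j) = c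
  have hc : Co (Dv j) c := hb ▸ Co_base i j
  induction n with
  | zero => rw [pow_zero]; exact Co_one fun _ => dvd_zero _
  | succ n ih => rw [pow_succ]; exact Co.mul Dv_add ih hc

theorem Co_prod {Q : (Fin d → ℕ) → Prop} (hQ : ∀ a b, Q a → Q b → Q (a + b)) (h0 : Q 0)
    (f : Fin d → PP d) (hf : ∀ i, Co Q (f i)) : Co Q (∏ i, f i) := by
  classical
  have : ∀ s : Finset (Fin d), Co Q (∏ i ∈ s, f i) := by
    intro s
    induction s using Finset.induction_on with
    | empty => rw [Finset.prod_empty]; exact Co_one h0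
    | insert a s ha ih => rw [Finset.prod_insert ha]; exact Co.mul hQ (hf a) ih
  exact this _

/-- `p = 1` modulo `T ^ K` -/
def OneMod (K : ℕ) (p : PP d) : Prop := ∃ W : PP d, p = 1 + Polynomial.X ^ K * W

theorem OneMod.mul {K : ℕ} {p q : PP d} (hp : OneMod K p) (hq : OneMod K q) :
    OneMod K (p * q) := by
  obtain ⟨W, rfl⟩ := hp
  obtain ⟨V, rfl⟩ := hq
  exact ⟨W + V + W * V * Polynomial.X ^ K, by ring⟩

theorem OneMod_one (K : ℕ) : OneMod K (1 : PP d) := ⟨0, by ring⟩

theorem OneMod_pow (i : Fin d) (t n : ℕ) : OneMod (2 ^ t) (base i ^ (n * 2 ^ t)) := by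
  rw [mul_comm, pow_mul]
  have hc : OneMod (2 ^ t) (base i ^ (2 ^ t)) := by
    rw [base_pow]
    exact ⟨Polynomial.C (mono (Pi.single i (2 ^ t))), by ring⟩
  generalize base i ^ (2 ^ t) = c at hc
  induction n with
  | zero => rw [pow_zero]; exact OneMod_one _
  | succ n ih => rw [pow_succ]; exact ih.mul hc

theorem OneMod_prod (K : ℕ) (f : Fin d → PP d) (hf : ∀ i, OneMod K (f i)) :
    OneMod K (∏ i, f i) := by
  classical
  have : ∀ s : Finset (Fin d), OneMod K (∏ i ∈ s, f i) := by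
    intro s
    induction s using Finset.induction_on with
    | empty => rw [Finset.prod_empty]; exact OneMod_one K
    | insert a s ha ih => rw [Finset.prod_insert ha]; exact (hf a).mul ih
  exact this _

theorem OneMod.coeff {K k : ℕ} (hk : k < K) {p : PP d} (hp : OneMod K p) (q : PP d) :
    (q * p).coeff k = q.coeff k := by
  obtain ⟨W, rfl⟩ := hp
  have : q * (1 + Polynomial.X ^ K * W) = q + Polynomial.X ^ K * (q * W) := by ring
  rw [this, Polynomial.coeff_add, Polynomial.coeff_X_pow_mul', if_neg (by omega), add_zero]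

theorem split_exp (z j m : ℕ) : z = z % 2 ^ j + (z % 2 ^ (j + m) / 2 ^ j * 2 ^ j) +
    z / 2 ^ (j + m) * 2 ^ (j + m) := by
  have h1 : z % 2 ^ (j + m) % 2 ^ j = z % 2 ^ j :=
    Nat.mod_mod_of_dvd _ (Nat.pow_dvd_pow 2 (by omega))
  have h2 := Nat.mod_add_div' (z % 2 ^ (j + m)) (2 ^ j)
  have h3 := Nat.mod_add_div' z (2 ^ (j + m))
  rw [h1] at h2
  omega

theorem row_main {z e : Fin d → ℕ} {j m k : ℕ} (hk : k < 2 ^ (j + m))
    (hw : ∀ s < j, wt z s = wt e s) (hdeg : ∑ i, z i + k = ∑ i, e i) :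
    sq d k (mono z) - F z (poss d j m) k z ∈ msp (fun y => MonLT y e) := by
  classical
  set r : Fin d → ℕ := fun i => z i % 2 ^ j with hr
  set r' : Fin d → ℕ := fun i => z i / 2 ^ j * 2 ^ j with hr'
  have hz : z = r' + r := by
    funext i; simp only [hr, hr', Pi.add_apply]; exact (Nat.div_add_mod' _ _).symm
  have hsplit : ∏ i, base i ^ z i = (∏ i, base i ^ r i) *
      (∏ i, base i ^ (z i % 2 ^ (j + m) / 2 ^ j * 2 ^ j)) *
      ∏ i, base i ^ (z i / 2 ^ (j + m) * 2 ^ (j + m)) := by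
    rw [← Finset.prod_mul_distrib, ← Finset.prod_mul_distrib]
    refine Finset.prod_congr rfl fun i _ => ?_
    rw [← pow_add, ← pow_add]
    congr 1
    exact split_exp _ _ _
  have hOne : OneMod (2 ^ (j + m)) (∏ i, base i ^ (z i / 2 ^ (j + m) * 2 ^ (j + m))) :=
    OneMod_prod _ _ fun i => OneMod_pow i _ _
  set Mid : PP d := ∏ i, base i ^ (z i % 2 ^ (j + m) / 2 ^ j * 2 ^ j) with hMid
  have hCo : Co (Dv j) Mid :=
    Co_prod Dv_add (fun _ => dvd_zero _) _ fun i => Co_base_pow i j _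
  have h1 : sq d k (mono z) = mono z * ((∏ i, base i ^ r i) * Mid).coeff k := by
    rw [sq_apply, St_mono_base, Polynomial.coeff_C_mul, hsplit, hOne.coeff hk]
  have h2 : F z (poss d j m) k z = mono z * Mid.coeff k := by
    unfold F; rw [poss_prod]
  have h3 : ∀ a, mono r * (∏ i, base i ^ r i : PP d).coeff a = sq d a (mono r) := by
    intro a
    rw [sq_apply, St_mono_base, Polynomial.coeff_C_mul]
  have h4 : (∏ i, base i ^ r i : PP d).coeff 0 = 1 := by
    have := OneMod_prod (d := d) 1 (fun i => base i ^ r i) fun i => by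
      have := OneMod_pow i 0 (r i)
      simpa using this
    have h := this.coeff (k := 0) (by norm_num) 1
    rw [one_mul] at h
    rw [h, Polynomial.coeff_one_zero]
  rw [h1, h2, ← mul_sub, Polynomial.coeff_mul]
  have hmem : (0, k) ∈ Finset.HasAntidiagonal.antidiagonal k := by
    rw [Finset.HasAntidiagonal.mem_antidiagonal]; simp
  rw [← Finset.add_sum_erase _ _ hmem, h4, one_mul, add_sub_cancel_left, Finset.mul_sum]
  refine Submodule.sum_mem _ fun x hx => ?_
  rw [Finset.mem_erase, Finset.HasAntidiagonal.mem_antidiagonal] at hx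
  obtain ⟨hx1, hx2⟩ := hx
  have hx0 : x.1 ≠ 0 := by
    intro h; apply hx1
    rw [h, zero_add] at hx2
    exact Prod.ext h hx2
  have e1 : mono z * ((∏ i, base i ^ r i : PP d).coeff x.1 * Mid.coeff x.2) =
      mono r' * (sq d x.1 (mono r)) * Mid.coeff x.2 := by
    rw [← h3]
    conv_lhs => rw [hz, mono_add]
    ring
  rw [e1]
  have e2 : mono r' * sq d x.1 (mono r) ∈ msp (fun y => ∃ p : Fin d → ℕ,
      (∀ i, (r i).choose (p i) % 2 = 1) ∧ ∑ i, p i = x.1 ∧ y = z + p) := by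
    refine msp_mul (Q1 := fun y => y = r') ?_ (mono_mem_msp rfl) (sq_mono_mem r x.1)
    rintro a b rfl ⟨p, hp1, hp2, rfl⟩
    exact ⟨p, hp1, hp2, by rw [← add_assoc, ← hz]⟩
  refine msp_mul ?_ e2 (hCo x.2)
  rintro a b ⟨p, hp1, hp2, rfl⟩ ⟨hb1, hb2⟩
  have hb := fun i => lucas_bits _ _ (hp1 i)
  have hrz : ∀ i s, r i / 2 ^ s % 2 = 1 → z i / 2 ^ s % 2 = 1 := by
    intro i s h
    rcases lt_or_ge s j with hsj | hsj
    · rw [← h]
      simp only [hr]
      obtain ⟨u, rfl⟩ : ∃ u, j = s + 1 + u := ⟨j - (s + 1), by omega⟩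
      have h1 : z i % 2 ^ (s + 1 + u) % 2 ^ (s + 1) = z i % 2 ^ (s + 1) :=
        Nat.mod_mod_of_dvd _ (Nat.pow_dvd_pow 2 (by omega))
      have h5 : ∀ w : ℕ, w / 2 ^ s % 2 = w % 2 ^ (s + 1) / 2 ^ s := by
        intro w
        rw [pow_succ, Nat.mod_mul_right_div_self]
      rw [h5, h5, h1]
    · exfalso
      have : r i / 2 ^ s = 0 := Nat.div_eq_of_lt
        (lt_of_lt_of_le (Nat.mod_lt _ (by positivity)) (Nat.pow_le_pow_right (by norm_num) hsj))
      omega
  obtain ⟨s, hsj, hs1, hs2⟩ := low_wt (z := z) (p := p) (y := b) (j := j)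
    (fun i s h => hrz i s (by have := (hb i).2 s; omega))
    (fun i => lt_of_le_of_lt (hb i).1 (Nat.mod_lt _ (by positivity)))
    (by
      by_contra hc
      push Not at hc
      apply hx0
      rw [← hp2]
      exact Finset.sum_eq_zero fun i _ => hc i) hb1
  refine ⟨?_, Or.inl ⟨s, fun l hl => ?_, ?_⟩⟩
  · simp only [Pi.add_apply]
    rw [Finset.sum_add_distrib, Finset.sum_add_distrib, hp2, hb2, add_assoc, hx2, hdeg]
  · rw [hs1 l hl, hw l (hl.trans hsj)]
  · rw [← hw s hsj]; exact hs2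

end Pool.Agent.CRT99
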