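import Pool.Agent.CRT99.Cert

set_option autoImplicit false

/-!
# Spike functionals pulled back by linear substitutions
-/

namespace Pool.Agent.CRT99

open Pool.Agent.Helper60.Hit Pool.Agent.CTD MvPolynomial

variable {d m : ℕ}

/-- the coefficient at an exponent vector -/
noncomputable def cf (s : Fin m → ℕ) : MvPolynomial (Fin m) (ZMod 2) →ₗ[ZMod 2] ZMod 2 where
  toFun f := coeff (Finsupp.equivFunOnFinite.symm s) f
  map_add' f g := coeff_add _ f g
  map_smul' a f := coeff_smul _ a f

theorem cf_apply (s : Fin m → ℕ) (f : MvPolynomial (Fin m) (ZMod 2)) :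
    cf s f = coeff (Finsupp.equivFunOnFinite.symm s) f := rfl

theorem cf_mono (s z : Fin m → ℕ) : cf s (mono z) = if z = s then 1 else 0 := by
  rw [cf_apply, coeff_mono]
  congr 1
  rw [eq_iff_iff]
  exact ⟨fun h => h.symm, fun h => h.symm⟩

theorem cf_msp {s : Fin m → ℕ} {Q : (Fin m → ℕ) → Prop} (hQ : ¬ Q s)
    {f : MvPolynomial (Fin m) (ZMod 2)} (hf : f ∈ msp Q) : cf s f = 0 := by
  by_contra h
  exact hQ (mem_msp_iff.mp hf _ h)

theorem bit_pow_sub_one (a s : ℕ) (h : (2 ^ a - 1) / 2 ^ s % 2 = 0) : 2 ^ a - 1 < 2 ^ s := by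
  by_contra hc
  push Not at hc
  have h1 : s < a := by
    by_contra h2
    have := Nat.pow_le_pow_right (n := 2) (by norm_num) (show a ≤ s by omega)
    have := Nat.one_le_two_pow (n := s)
    omega
  obtain ⟨u, rfl⟩ : ∃ u, a = s + 1 + u := ⟨a - (s + 1), by omega⟩
  have h2 : 2 ^ (s + 1 + u) - 1 = 2 ^ s * (2 * (2 ^ u - 1) + 1) + (2 ^ s - 1) := by
    have h3 := Nat.one_le_two_pow (n := s)
    have h4 := Nat.one_le_two_pow (n := u)
    obtain ⟨v, hv⟩ : ∃ v, 2 ^ u = v + 1 := ⟨2 ^ u - 1, by omega⟩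
    rw [pow_add, pow_succ, hv]
    have : v + 1 - 1 = v := by omega
    rw [this]
    have e : 2 ^ s * 2 * (v + 1) = 2 ^ s * (2 * v + 1) + 2 ^ s := by ring
    omega
  rw [h2, Nat.mul_add_div (by positivity), Nat.div_eq_of_lt (by have := Nat.one_le_two_pow (n := s); omega)] at h
  omega

/-- the coefficient of a spike in a hit polynomial is zero -/
theorem spike_hits {s : Fin m → ℕ} (hs : ∀ j, ∃ a, s j = 2 ^ a - 1)
    {f : MvPolynomial (Fin m) (ZMod 2)} (hf : f ∈ hits m) : cf s f = 0 := by
  refine hits_induction (P := fun f => cf s f = 0) (map_zero _) ?_ ?_ hf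
  · intro f g hf hg
    rw [map_add, hf, hg, add_zero]
  · intro e i hi
    refine cf_msp ?_ (sq_mono_mem e i)
    rintro ⟨p, hp, hsum, hse⟩
    have : ∃ j, p j ≠ 0 := by
      by_contra hc
      push Not at hc
      rw [Finset.sum_eq_zero (fun j _ => hc j)] at hsum
      omega
    obtain ⟨j, hj⟩ := this
    obtain ⟨a, ha⟩ := hs j
    -- the lowest bit of `p j`
    have hex : ∃ t, p j / 2 ^ t % 2 = 1 := exists_bit hj
    classical
    have ht := Nat.find_spec hex
    have hmin : ∀ t' < Nat.find hex, p j / 2 ^ t' % 2 = 0 := by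
      intro t' ht'
      have := Nat.find_min hex ht'
      omega
    generalize Nat.find hex = t at ht hmin
    have hb := lucas_bits _ _ (hp j)
    have h1 := hb.2 t
    have hsj : s j = e j + p j := by rw [hse]; rfl
    have h2 : (e j + p j) / 2 ^ t % 2 = (e j / 2 ^ t % 2 + p j / 2 ^ t % 2) % 2 :=
      bit_add_of_no_carry fun s' hs' hh => by have := hmin s' hs'; omega
    have h3 : s j / 2 ^ t % 2 = 0 := by rw [hsj, h2]; omega
    rw [ha] at h3
    have h4 := bit_pow_sub_one a t h3
    have h5 : 2 ^ t ≤ p j := by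
      by_contra hc
      push Not at hc
      rw [Nat.div_eq_of_lt hc] at ht
      omega
    omega

/-- the linear forms `∑_{j ∈ I a} x_j` -/
noncomputable def lf (I : Fin d → Finset (Fin m)) (a : Fin d) : MvPolynomial (Fin m) (ZMod 2) :=
  ∑ j ∈ I a, X j

/-- the substitution -/
noncomputable def ev (I : Fin d → Finset (Fin m)) :
    MvPolynomial (Fin d) (ZMod 2) →ₐ[ZMod 2] MvPolynomial (Fin m) (ZMod 2) := aeval (lf I)

theorem ev_hits (I : Fin d → Finset (Fin m)) {f : MvPolynomial (Fin d) (ZMod 2)}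
    (hf : f ∈ hits d) : ev I f ∈ hits m := aeval_hits _ (fun _ => lin_sum _) hf

theorem ev_mono (I : Fin d → Finset (Fin m)) (y : Fin d → ℕ) :
    ev I (mono y) = ∏ a, lf I a ^ y a := aeval_mono _ _

/-- the exponent vector with ones at the first `w` places -/
def ind (m w : ℕ) : Fin m → ℕ := fun j => if (j : ℕ) < w then 1 else 0

/-- the exponent vector with prescribed weight vector, filled from the left -/
def sE (m : ℕ) : List ℕ → Fin m → ℕ
  | [] => 0
  | w :: ws => ind m w + (fun j => 2 * sE m ws j)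

theorem sum_ind {w : ℕ} (hw : w ≤ m) : ∑ j, ind m w j = w := by
  unfold ind
  rw [Finset.sum_ite, Finset.sum_const_zero, add_zero, Finset.sum_const, smul_eq_mul, mul_one]
  have : (Finset.univ.filter fun j : Fin m => (j : ℕ) < w) =
      Finset.univ.map (Fin.castLEEmb hw) := by
    ext j
    simp only [Finset.mem_filter, Finset.mem_univ, true_and, Finset.mem_map, Fin.castLEEmb_apply]
    constructor
    · intro h; exact ⟨⟨j, h⟩, Fin.ext rfl⟩
    · rintro ⟨i, rfl⟩; exact i.2
  rw [this, Finset.card_map, Finset.card_univ, Fintype.card_fin]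

theorem lf_hom (I : Fin d → Finset (Fin m)) (a : Fin d) : (lf I a).IsHomogeneous 1 :=
  (lin_sum (I a)).1

theorem prod_mem (I : Fin d → Finset (Fin m)) (y : Fin d → ℕ) :
    ∏ a, lf I a ^ y a ∈ msp (fun z : Fin m → ℕ => ∑ j, z j = ∑ a, y a) := by
  rw [mem_msp_iff]
  intro t ht
  have h : (∏ a, lf I a ^ y a).IsHomogeneous (∑ a, y a) := by
    have := IsHomogeneous.prod (R := ZMod 2) Finset.univ (fun a => lf I a ^ y a) (fun a => y a)
      (fun a _ => by simpa using (lf_hom I a).pow (y a))
    exact this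
  have h2 := h ht
  have h3 : Finsupp.degree t = ∑ a, y a := by
    rw [← h2]; exact DFunLike.congr_fun Finsupp.degree_eq_weight_one t
  rw [Finsupp.degree_eq_sum] at h3
  exact h3

/-- one level -/
theorem level_mono {w : ℕ} (hw : w ≤ m) (t u s : Fin m → ℕ) (ht : ∑ j, t j ≤ w)
    (h : t + (fun j => 2 * u j) = ind m w + (fun j => 2 * s j)) : t = ind m w ∧ u = s := by
  have h1 : ∀ j, ind m w j ≤ t j := by
    intro j
    have := congrFun h j
    simp only [Pi.add_apply] at this
    unfold ind at this ⊢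
    split_ifs at this ⊢ <;> omega
  have h2 : ∑ j, ind m w j ≤ ∑ j, t j := Finset.sum_le_sum fun j _ => h1 j
  rw [sum_ind hw] at h2
  have h3 : ∀ j, ind m w j = t j := by
    have := (Finset.sum_eq_sum_iff_of_le (fun j (_ : j ∈ Finset.univ) => h1 j)).mp
      (by rw [sum_ind hw]; omega)
    intro j; exact this j (Finset.mem_univ j)
  have h4 : t = ind m w := by funext j; exact (h3 j).symm
  refine ⟨h4, ?_⟩
  funext j
  have := congrFun h j
  rw [h4] at this
  simp only [Pi.add_apply] at this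
  omega

theorem sq_add (f g : MvPolynomial (Fin m) (ZMod 2)) : (f + g) ^ 2 = f ^ 2 + g ^ 2 :=
  CharTwo.add_sq _ _

theorem mono_sq (u : Fin m → ℕ) : mono u ^ 2 = mono (fun j => 2 * u j) := by
  rw [pow_two, ← mono_add]
  congr 1
  funext j
  simp only [Pi.add_apply]
  ring

theorem level_lt {w n : ℕ} (hw : w ≤ m) (hn : n < w) (s : Fin m → ℕ)
    {P : MvPolynomial (Fin m) (ZMod 2)} (hP : P ∈ msp (fun t : Fin m → ℕ => ∑ j, t j = n))
    (Q : MvPolynomial (Fin m) (ZMod 2)) :
    cf (ind m w + (fun j => 2 * s j)) (P * Q ^ 2) = 0 := by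
  induction hP using Submodule.span_induction with
  | zero => rw [zero_mul, map_zero]
  | add x y _ _ hx hy => rw [add_mul, map_add, hx, hy, add_zero]
  | smul a x _ hx => rw [smul_mul_assoc, map_smul, hx, smul_zero]
  | mem x hx =>
    obtain ⟨t, rfl, ht⟩ := hx
    induction Q using poly_induction with
    | h0 => rw [zero_pow (by norm_num), mul_zero, map_zero]
    | hadd f g hf hg => rw [sq_add, mul_add, map_add, hf, hg, add_zero]
    | hm u =>
      rw [mono_sq, ← mono_add, cf_mono, if_neg]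
      intro h
      obtain ⟨h1, -⟩ := level_mono hw t u s (by omega) h
      rw [h1, sum_ind hw] at ht
      omega

theorem level_eq {w : ℕ} (hw : w ≤ m) (s : Fin m → ℕ)
    {P : MvPolynomial (Fin m) (ZMod 2)} (hP : P ∈ msp (fun t : Fin m → ℕ => ∑ j, t j = w))
    (Q : MvPolynomial (Fin m) (ZMod 2)) :
    cf (ind m w + (fun j => 2 * s j)) (P * Q ^ 2) = cf (ind m w) P * cf s Q := by
  induction hP using Submodule.span_induction with
  | zero => rw [zero_mul, map_zero, map_zero, zero_mul]
  | add x y _ _ hx hy => rw [add_mul, map_add, hx, hy, map_add, add_mul]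
  | smul a x _ hx => rw [smul_mul_assoc, map_smul, hx, map_smul, smul_mul_assoc]
  | mem x hx =>
    obtain ⟨t, rfl, ht⟩ := hx
    induction Q using poly_induction with
    | h0 => rw [zero_pow (by norm_num), mul_zero, map_zero, map_zero, mul_zero]
    | hadd f g hf hg => rw [sq_add, mul_add, map_add, hf, hg, map_add, mul_add]
    | hm u =>
      rw [mono_sq, ← mono_add, cf_mono, cf_mono, cf_mono]
      by_cases h : t + (fun j => 2 * u j) = ind m w + (fun j => 2 * s j)
      · obtain ⟨h1, h2⟩ := level_mono hw t u s (by omega) h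
        rw [if_pos h, if_pos h1, if_pos h2, mul_one]
      · rw [if_neg h]
        by_cases h1 : t = ind m w
        · by_cases h2 : u = s
          · exact absurd (by rw [h1, h2]) h
          · rw [if_neg h2, mul_zero]
        · rw [if_neg h1, zero_mul]

theorem split_prod (I : Fin d → Finset (Fin m)) (y : Fin d → ℕ) :
    ∏ a, lf I a ^ y a = (∏ a, lf I a ^ (y a % 2)) * (∏ a, lf I a ^ (y a / 2)) ^ 2 := by
  rw [← Finset.prod_pow, ← Finset.prod_mul_distrib]
  refine Finset.prod_congr rfl fun a _ => ?_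
  rw [← pow_mul, ← pow_add]
  congr 1
  omega

theorem step_lt (I : Fin d → Finset (Fin m)) {w : ℕ} (hw : w ≤ m) (ws : List ℕ)
    (y : Fin d → ℕ) (h : wt y 0 < w) : cf (sE m (w :: ws)) (∏ a, lf I a ^ y a) = 0 := by
  rw [split_prod]
  refine level_lt hw (n := ∑ a, y a % 2) ?_ _ (prod_mem I fun a => y a % 2) _
  have : wt y 0 = ∑ a, y a % 2 := by unfold wt; simp
  omega

theorem step_eq (I : Fin d → Finset (Fin m)) {w : ℕ} (hw : w ≤ m) (ws : List ℕ)
    (y : Fin d → ℕ) (h : wt y 0 = w) : cf (sE m (w :: ws)) (∏ a, lf I a ^ y a) =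
      cf (ind m w) (∏ a, lf I a ^ (y a % 2)) * cf (sE m ws) (∏ a, lf I a ^ (y a / 2)) := by
  rw [split_prod]
  have h1 : wt y 0 = ∑ a, y a % 2 := by unfold wt; simp
  have h2 := prod_mem I fun a => y a % 2
  rw [← h1, h] at h2
  exact level_eq hw _ h2 _

end Pool.Agent.CRT99
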